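import Pool.Agent.Helper19.Wag.LemK

/-!
# Lemma V: a `V8` model in a 3-connected graph without `K5` model is the whole graph
-/

namespace Helper19.Wag

open Function

variable {V : Type*} {H : SimpleGraph V}

/-- the three neighbours of `0` in `V8` -/
def dd : Fin 3 → Fin 8 := ![1, 7, 4]

lemma PM.rot {f : Fin 8 → Set V} (h : PM H L8 f) (i : Fin 8) : PM H L8 (fun k => f (k + i)) := by
  refine ⟨fun k => h.con _, fun k l hkl => h.disj _ _ (fun hx => hkl (add_right_cancel hx)), ?_⟩
  intro p hp
  have h1 : ∀ i : Fin 8, ∀ p ∈ L8, la L8 (p.1 + i) (p.2 + i) = true := by decide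
  exact h.la_adj (h1 i p hp)

lemma v8_chord2 {f : Fin 8 → Set V} (h : PM H L8 f) (hx : SAdj H (f 0) (f 2)) : K5M H := by
  have h1 : PM H ((0, 2) :: L8) f := by
    refine ⟨h.con, h.disj, ?_⟩
    intro p hp
    rcases List.mem_cons.1 hp with rfl | hp
    · exact hx
    · exact h.adj p hp
  exact (h1.comp ![[0], [2], [5, 1], [4, 3], [7, 6]] L5 (by decide)).k5

lemma v8_chord3 {f : Fin 8 → Set V} (h : PM H L8 f) (hx : SAdj H (f 0) (f 3)) : K5M H := by
  have h1 : PM H ((0, 3) :: L8) f := by
    refine ⟨h.con, h.disj, ?_⟩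
    intro p hp
    rcases List.mem_cons.1 hp with rfl | hp
    · exact hx
    · exact h.adj p hp
  exact (h1.comp ![[0], [3], [2, 1], [5, 4], [7, 6]] L5 (by decide)).k5

/-- without `K5` model, only neighbours in `V8` are adjacent -/
lemma v8_adj {f : Fin 8 → Set V} (h5 : ¬ K5M H) (h : PM H L8 f) {i j : Fin 8} (hij : i ≠ j)
    (hx : SAdj H (f i) (f j)) : ∃ k, j = i + dd k := by
  by_contra hcon
  push Not at hcon
  have h1 : ∀ i j : Fin 8, i ≠ j → (∀ k, j ≠ i + dd k) →
      j = 2 + i ∨ j = 3 + i ∨ i = 2 + j ∨ i = 3 + j := by decide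
  apply h5
  rcases h1 i j hij hcon with hj | hj | hj | hj
  · have h2 := h.rot i
    refine v8_chord2 h2 ?_
    simpa [← hj] using hx
  · have h2 := h.rot i
    refine v8_chord3 h2 ?_
    simpa [← hj] using hx
  · have h2 := h.rot j
    refine v8_chord2 h2 ?_
    simpa [← hj] using hx.symm
  · have h2 := h.rot j
    refine v8_chord3 h2 ?_
    simpa [← hj] using hx.symm

lemma v8_typeB {f : Fin 8 → Set V} (h : PM H L8 f)
    (hB : TypeB H (f 0) (fun k => nb H (f (dd k)))) : K5M H := by
  obtain ⟨U, U', hU, hd, h1, h2, a, b, c, hab, hac, hbc, hUa, hUb, hUa', hUc⟩ := hB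
  rw [meets_nb] at hUa hUb hUa' hUc
  have hUU := (h.con 0).split_adj hU hd h1.nonempty h2.nonempty
  have hs1 : U ⊆ f 0 := hU ▸ Set.subset_union_left
  have hs2 : U' ⊆ f 0 := hU ▸ Set.subset_union_right
  set pos : Fin 3 → Fin 9 := ![2, 8, 5] with hpos
  set F : Fin 9 → Set V := ![U, U', f 1, f 2, f 3, f 4, f 5, f 6, f 7] with hF
  have hFpos : ∀ k, F (pos k) = f (dd k) := by
    intro k; fin_cases k <;> rfl
  have hpm : PM H [(2, 3), (3, 4), (4, 5), (5, 6), (6, 7), (7, 8), (2, 6), (3, 7), (4, 8),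
      (0, 1), (0, pos a), (0, pos b), (1, pos a), (1, pos c)] F := by
    refine ⟨?_, ?_, ?_⟩
    · intro x
      fin_cases x
      exacts [h1, h2, h.con 1, h.con 2, h.con 3, h.con 4, h.con 5, h.con 6, h.con 7]
    · refine disj_of_parent h.disj (![0, 0, 1, 2, 3, 4, 5, 6, 7]) ?_ ?_
      · intro x
        fin_cases x
        exacts [hs1, hs2, subset_rfl, subset_rfl, subset_rfl, subset_rfl, subset_rfl, subset_rfl,
          subset_rfl]
      · have hpar : ∀ x y : Fin 9, x ≠ y →
            (![0, 0, 1, 2, 3, 4, 5, 6, 7] : Fin 9 → Fin 8) x =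
            (![0, 0, 1, 2, 3, 4, 5, 6, 7] : Fin 9 → Fin 8) y →
            (x = 0 ∧ y = 1) ∨ (x = 1 ∧ y = 0) := by decide
        intro x y hxy hp
        rcases hpar x y hxy hp with ⟨rfl, rfl⟩ | ⟨rfl, rfl⟩
        · exact hd
        · exact hd.symm
    · intro r hr
      simp only [List.mem_cons, List.not_mem_nil, or_false] at hr
      rcases hr with rfl | rfl | rfl | rfl | rfl | rfl | rfl | rfl | rfl | rfl | rfl | rfl | rfl |
        rfl
      · exact h.adj (1, 2) (by decide)
      · exact h.adj (2, 3) (by decide)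
      · exact h.adj (3, 4) (by decide)
      · exact h.adj (4, 5) (by decide)
      · exact h.adj (5, 6) (by decide)
      · exact h.adj (6, 7) (by decide)
      · exact h.adj (1, 5) (by decide)
      · exact h.adj (2, 6) (by decide)
      · exact h.adj (3, 7) (by decide)
      · exact hUU
      · change SAdj H U (F (pos a)); rw [hFpos]; exact hUa
      · change SAdj H U (F (pos b)); rw [hFpos]; exact hUb
      · change SAdj H U' (F (pos a)); rw [hFpos]; exact hUa'
      · change SAdj H U' (F (pos c)); rw [hFpos]; exact hUc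
  have hchk : ∀ a b c : Fin 3, a ≠ b → a ≠ c → b ≠ c →
      chk [(2, 3), (3, 4), (4, 5), (5, 6), (6, 7), (7, 8), (2, 6), (3, 7), (4, 8),
      (0, 1), (0, (![2, 8, 5] : Fin 3 → Fin 9) a), (0, (![2, 8, 5] : Fin 3 → Fin 9) b),
      (1, (![2, 8, 5] : Fin 3 → Fin 9) a), (1, (![2, 8, 5] : Fin 3 → Fin 9) c)]
      ![[(![2, 8, 5] : Fin 3 → Fin 9) a], [(![2, 8, 5] : Fin 3 → Fin 9) b, 0],
        [(![2, 8, 5] : Fin 3 → Fin 9) c, 1], [4, 3], [7, 6]] L5 = true := by decide
  exact (hpm.comp _ L5 (hchk a b c hab hac hbc)).k5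

lemma v8_typeC {f : Fin 8 → Set V} (h : PM H L8 f)
    (hC : TypeC H (f 0) (fun k => nb H (f (dd k)))) : K5M H := by
  obtain ⟨U, hU, hd, hc, ha, hm, -⟩ := hC
  have hm' : ∀ i, SAdj H (U i) (f (dd i)) := fun i => meets_nb.1 (hm i)
  have hs : ∀ i, U i ⊆ f 0 := fun i x hx => (hU x).2 ⟨i, hx⟩
  have hpm : PM H [(3, 4), (4, 5), (5, 6), (6, 7), (7, 8), (8, 9), (3, 7), (4, 8), (5, 9),
      (0, 1), (0, 2), (1, 2), (0, 3), (1, 9), (2, 6)]
      (![U 0, U 1, U 2, f 1, f 2, f 3, f 4, f 5, f 6, f 7] : Fin 10 → Set V) := by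
    refine ⟨?_, ?_, ?_⟩
    · intro x
      fin_cases x
      exacts [hc 0, hc 1, hc 2, h.con 1, h.con 2, h.con 3, h.con 4, h.con 5, h.con 6, h.con 7]
    · refine disj_of_parent h.disj (![0, 0, 0, 1, 2, 3, 4, 5, 6, 7]) ?_ ?_
      · intro x
        fin_cases x
        exacts [hs 0, hs 1, hs 2, subset_rfl, subset_rfl, subset_rfl, subset_rfl, subset_rfl,
          subset_rfl, subset_rfl]
      · have hpar : ∀ x y : Fin 10, x ≠ y →
            (![0, 0, 0, 1, 2, 3, 4, 5, 6, 7] : Fin 10 → Fin 8) x =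
            (![0, 0, 0, 1, 2, 3, 4, 5, 6, 7] : Fin 10 → Fin 8) y →
            (x = 0 ∧ y = 1) ∨ (x = 1 ∧ y = 0) ∨ (x = 0 ∧ y = 2) ∨ (x = 2 ∧ y = 0) ∨
            (x = 1 ∧ y = 2) ∨ (x = 2 ∧ y = 1) := by decide
        intro x y hxy hp
        rcases hpar x y hxy hp with ⟨rfl, rfl⟩ | ⟨rfl, rfl⟩ | ⟨rfl, rfl⟩ | ⟨rfl, rfl⟩ |
          ⟨rfl, rfl⟩ | ⟨rfl, rfl⟩
        · exact hd 0 1 (by decide)
        · exact hd 1 0 (by decide)
        · exact hd 0 2 (by decide)
        · exact hd 2 0 (by decide)
        · exact hd 1 2 (by decide)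
        · exact hd 2 1 (by decide)
    · intro r hr
      simp only [List.mem_cons, List.not_mem_nil, or_false] at hr
      rcases hr with rfl | rfl | rfl | rfl | rfl | rfl | rfl | rfl | rfl | rfl | rfl | rfl | rfl |
        rfl | rfl
      · exact h.adj (1, 2) (by decide)
      · exact h.adj (2, 3) (by decide)
      · exact h.adj (3, 4) (by decide)
      · exact h.adj (4, 5) (by decide)
      · exact h.adj (5, 6) (by decide)
      · exact h.adj (6, 7) (by decide)
      · exact h.adj (1, 5) (by decide)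
      · exact h.adj (2, 6) (by decide)
      · exact h.adj (3, 7) (by decide)
      · exact ha 0 1 (by decide)
      · exact ha 0 2 (by decide)
      · exact ha 1 2 (by decide)
      · exact hm' 0
      · exact hm' 1
      · exact hm' 2
  exact (hpm.comp ![[3, 0], [9, 1], [6, 2], [5, 4], [8, 7]] L5 (by decide)).k5

/-- every set of the model is of type A -/
lemma v8_typeA [Finite V] {f : Fin 8 → Set V} (h5 : ¬ K5M H) (h : PM H L8 f) (i : Fin 8) :
    TypeA H (f i) (fun k => nb H (f (i + dd k))) := by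
  have h1 := h.rot i
  have h2 : ∀ k, Meets (f (0 + i)) (nb H (f (dd k + i))) := by
    intro k
    rw [meets_nb]
    have : ∀ k, la L8 0 (dd k) = true := by decide
    exact h1.la_adj (this k)
  have h3 := trichotomy (h1.con 0) h2
  have h4 : TypeA H (f (0 + i)) (fun k => nb H (f (dd k + i))) := by
    rcases h3 with h3 | h3 | h3
    · exact h3
    · exact absurd (v8_typeB h1 h3) h5
    · exact absurd (v8_typeC h1 h3) h5
  rw [zero_add] at h4
  have h5 : (fun k => nb H (f (dd k + i))) = (fun k => nb H (f (i + dd k))) := by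
    funext k; rw [add_comm]
  rw [h5] at h4
  exact h4

/-- the index of `-x` for the neighbour `x` -/
def neg3 : Fin 3 → Fin 3 := ![1, 0, 2]

lemma dd_neg : ∀ (i : Fin 8) (k : Fin 3), i + dd k + dd (neg3 k) = i := by decide

lemma dd_inj : ∀ (i : Fin 8) (k l : Fin 3), i + dd k = i + dd l → k = l := by decide

lemma dd_ne : ∀ (i : Fin 8) (k : Fin 3), i ≠ i + dd k := by decide

/-- **Lemma V.** -/
theorem lemmaV [Finite V] {f : Fin 8 → Set V} (h5 : ¬ K5M H) (h : PM H L8 f)
    (hcov : ∀ v, ∃ i, v ∈ f i) (h3 : ∀ a b : V, Con H {x | x ≠ a ∧ x ≠ b}) :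
    ∃ w : Fin 8 → V, Bijective w ∧ ∀ i j, H.Adj (w i) (w j) ↔ ∃ k, j = i + dd k := by
  have hA := fun i => v8_typeA h5 h i
  choose w hw hA using hA
  have hdisj : ∀ {i j : Fin 8} {x : V}, x ∈ f i → x ∈ f j → i = j := by
    intro i j x hi hj
    by_contra hne
    exact Set.disjoint_left.1 (h.disj i j hne) hi hj
  have hsing : ∀ i, ∀ v ∈ f i, v = w i := by
    intro i v hv
    by_contra hvw
    have hvm : v ∈ f i \ {w i} := ⟨hv, hvw⟩
    -- the exceptional neighbour
    obtain ⟨k, hk⟩ : ∃ k, ∀ l, Meets (comp H (f i \ {w i}) v) (nb H (f (i + dd l))) → l = k := by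
      by_cases hex : ∃ k, Meets (comp H (f i \ {w i}) v) (nb H (f (i + dd k)))
      · obtain ⟨k, hk⟩ := hex
        exact ⟨k, fun l hl => hA i _ (comp_subset _ v) (comp_con hvm) l k hl hk⟩
      · push Not at hex
        exact ⟨0, fun l hl => absurd hl (hex l)⟩
    set j := i + dd k with hj
    set k' := neg3 k with hk'
    have hjk : j + dd k' = i := by rw [hj, hk']; exact dd_neg i k
    have hij : i ≠ j := dd_ne i k
    -- the closed set
    set X : Set V := {x | (x ∈ f i \ {w i} ∧ ∀ l, Meets (comp H (f i \ {w i}) x)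
        (nb H (f (i + dd l))) → l = k) ∨ (x ∈ f j \ {w j} ∧ ∀ l, Meets (comp H (f j \ {w j}) x)
        (nb H (f (j + dd l))) → l = k')} with hX
    have hclosed : ∀ x ∈ X, ∀ y, H.Adj x y → y ≠ w i → y ≠ w j → y ∈ X := by
      have key : ∀ (i j : Fin 8) (k k' : Fin 3), j = i + dd k → i = j + dd k' →
          ∀ x y, x ∈ f i \ {w i} → (∀ l, Meets (comp H (f i \ {w i}) x)
          (nb H (f (i + dd l))) → l = k) → H.Adj x y → y ≠ w i → y ≠ w j →
          (y ∈ f i \ {w i} ∧ ∀ l, Meets (comp H (f i \ {w i}) y)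
          (nb H (f (i + dd l))) → l = k) ∨ (y ∈ f j \ {w j} ∧ ∀ l, Meets (comp H (f j \ {w j}) y)
          (nb H (f (j + dd l))) → l = k') := by
        intro i j k k' hj hi x y hx hxl hxy hyi hyj
        obtain ⟨m, hm⟩ := hcov y
        by_cases hmi : m = i
        · subst hmi
          left
          have h1 : y ∈ comp H (f m \ {w m}) x := comp_closed (mem_comp_self hx) ⟨hm, hyi⟩ hxy
          rw [comp_eq_of_mem h1]
          exact ⟨⟨hm, hyi⟩, hxl⟩
        · right
          obtain ⟨l, hl⟩ := v8_adj h5 h (Ne.symm hmi) ⟨x, hx.1, y, hm, hxy⟩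
          have hlk : l = k := by
            refine hxl l ⟨x, mem_comp_self hx, ?_⟩
            rw [← hl]
            exact ⟨y, hm, hxy.symm⟩
          have hmj : m = j := by rw [hl, hlk, hj]
          rw [hmj] at hm
          have hym : y ∈ f j \ {w j} := ⟨hm, hyj⟩
          refine ⟨hym, ?_⟩
          intro l' hl'
          refine hA j _ (comp_subset _ y) (comp_con hym) l' k' hl' ?_
          refine ⟨y, mem_comp_self hym, ?_⟩
          change y ∈ nb H (f (j + dd k'))
          rw [← hi]
          exact ⟨x, hx.1, hxy⟩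
      rintro x (⟨hx, hxl⟩ | ⟨hx, hxl⟩) y hxy hyi hyj
      · exact key i j k k' hj hjk.symm x y hx hxl hxy hyi hyj
      · exact (key j i k' k hjk.symm hj x y hx hxl hxy hyj hyi).symm
    have hvX : v ∈ X := Or.inl ⟨hvm, hk⟩
    have hXs : X ⊆ {x | x ≠ w i ∧ x ≠ w j} := by
      rintro x (⟨hx, -⟩ | ⟨hx, -⟩)
      · refine ⟨hx.2, ?_⟩
        rintro rfl
        exact hij (hdisj hx.1 (hw j))
      · refine ⟨?_, hx.2⟩
        rintro rfl
        exact hij (hdisj (hw i) hx.1)
    have hXne : X ≠ {x | x ≠ w i ∧ x ≠ w j} := by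
      intro hXe
      have h8 : ∀ i j : Fin 8, ∃ m, m ≠ i ∧ m ≠ j := by decide
      obtain ⟨m, hmi, hmj⟩ := h8 i j
      have h1 : w m ∈ {x | x ≠ w i ∧ x ≠ w j} := by
        constructor
        · intro he
          exact hmi (hdisj (hw m) (he ▸ hw i))
        · intro he
          exact hmj (hdisj (hw m) (he ▸ hw j))
      rw [← hXe] at h1
      rcases h1 with ⟨hx, -⟩ | ⟨hx, -⟩
      · exact hmi (hdisj (hw m) hx.1)
      · exact hmj (hdisj (hw m) hx.1)
    obtain ⟨x, hx, y, hy, hxy⟩ := (h3 (w i) (w j)).exists_adj hXs ⟨v, hvX⟩ hXne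
    exact hy.2 (hclosed x hx y hxy hy.1.1 hy.1.2)
  refine ⟨w, ⟨?_, ?_⟩, ?_⟩
  · intro i j hij
    exact hdisj (hw i) (hij ▸ hw j)
  · intro v
    obtain ⟨i, hi⟩ := hcov v
    exact ⟨i, (hsing i v hi).symm⟩
  · intro i j
    constructor
    · intro hadj
      have hij : i ≠ j := by
        rintro rfl
        exact H.irrefl hadj
      exact v8_adj h5 h hij ⟨w i, hw i, w j, hw j, hadj⟩
    · rintro ⟨k, rfl⟩
      have h1 : ∀ i k, la L8 i (i + dd k) = true := by decide
      obtain ⟨u, hu, v, hv, huv⟩ := h.la_adj (h1 i k)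
      rw [← hsing _ u hu, ← hsing _ v hv]
      exact huv

/-- Extending a model to a spanning one. -/
theorem PM.spanning [Finite V] {n : ℕ} {L : List (Fin n × Fin n)} (hH : Con H Set.univ)
    (hn : 0 < n) {f : Fin n → Set V} (h : PM H L f) :
    ∃ f', PM H L f' ∧ (∀ v, ∃ i, v ∈ f' i) ∧ ∀ i, f i ⊆ f' i := by
  have key : ∀ (m : ℕ) (f : Fin n → Set V), PM H L f → ({v | ∀ i, v ∉ f i} : Set V).ncard = m →
      ∃ f', PM H L f' ∧ (∀ v, ∃ i, v ∈ f' i) ∧ ∀ i, f i ⊆ f' i := by
    intro m
    induction m with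
    | zero =>
      intro f h hm
      rw [Set.ncard_eq_zero (Set.toFinite _)] at hm
      refine ⟨f, h, fun v => ?_, fun i => subset_rfl⟩
      by_contra hcon
      push Not at hcon
      exact (Set.ext_iff.1 hm v).1 hcon
    | succ m ih =>
      intro f h hm
      -- an edge from the union to the rest
      obtain ⟨x, hx⟩ := (h.con ⟨0, hn⟩).nonempty
      have h1 : ({v | ∃ i, v ∈ f i} : Set V) ≠ Set.univ := by
        intro he
        have h2 : ({v | ∀ i, v ∉ f i} : Set V) = ∅ := by
          ext v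
          simp only [Set.mem_ofPred_eq, Set.mem_empty_iff_false, iff_false]
          intro hv
          obtain ⟨i, hi⟩ := (Set.ext_iff.1 he v).2 trivial
          exact hv i hi
        rw [h2, Set.ncard_empty] at hm
        omega
      have h0 : ({v | ∃ i, v ∈ f i} : Set V).Nonempty := ⟨x, ⟨⟨0, hn⟩, hx⟩⟩
      obtain ⟨u, ⟨i, hu⟩, v, hv, huv⟩ := hH.exists_adj (Set.subset_univ _) h0 h1
      have hvn : ∀ j, v ∉ f j := fun j hj => hv.2 ⟨j, hj⟩
      set f₁ : Fin n → Set V := update f i (Insert.insert v (f i)) with hf₁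
      have hmono : ∀ k, f k ⊆ f₁ k := by
        intro k
        by_cases hk : k = i
        · subst hk; rw [hf₁, update_self]; exact Set.subset_insert _ _
        · rw [hf₁, update_of_ne hk]
      have hpm : PM H L f₁ := by
        refine ⟨?_, ?_, fun p hp => (h.adj p hp).mono (hmono _) (hmono _)⟩
        · intro k
          by_cases hk : k = i
          · subst hk; rw [hf₁, update_self]; exact (h.con k).insert_adj hu huv.symm
          · rw [hf₁, update_of_ne hk]; exact h.con k
        · have h4 : ∀ l, l ≠ i → Disjoint (Insert.insert v (f i)) (f l) := by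
            intro l hl
            rw [Set.disjoint_insert_left]
            exact ⟨hvn l, h.disj i l hl.symm⟩
          intro k l hkl
          by_cases hk : k = i
          · subst hk
            rw [hf₁, update_self, update_of_ne hkl.symm]
            exact h4 l hkl.symm
          · by_cases hl : l = i
            · subst hl
              rw [hf₁, update_self, update_of_ne hk]
              exact (h4 k hk).symm
            · rw [hf₁, update_of_ne hk, update_of_ne hl]
              exact h.disj k l hkl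
      have hm' : ({v | ∀ i, v ∉ f₁ i} : Set V).ncard = m := by
        have h5 : ({x | ∀ i, x ∉ f i} : Set V) =
            Insert.insert v ({x | ∀ i, x ∉ f₁ i} : Set V) := by
          ext x
          simp only [Set.mem_ofPred_eq, Set.mem_insert_iff]
          constructor
          · intro hx
            by_cases hxv : x = v
            · exact Or.inl hxv
            · right
              intro k hk
              by_cases hki : k = i
              · subst hki
                rw [hf₁, update_self] at hk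
                exact hk.elim hxv (hx k)
              · rw [hf₁, update_of_ne hki] at hk
                exact hx k hk
          · rintro (rfl | hx)
            · exact hvn
            · exact fun k hk => hx k (hmono k hk)
        have h6 : v ∉ ({x | ∀ i, x ∉ f₁ i} : Set V) := by
          intro hx
          refine hx i ?_
          rw [hf₁, update_self]
          exact Set.mem_insert _ _
        rw [h5, Set.ncard_insert_of_notMem h6 (Set.toFinite _)] at hm
        omega
      obtain ⟨f', hf', hc, hs⟩ := ih f₁ hpm hm'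
      exact ⟨f', hf', hc, fun k => (hmono k).trans (hs k)⟩
  exact key _ f h rfl

/-- the edges of `K33` -/
def L33 : List (Fin 6 × Fin 6) :=
  [(0, 3), (0, 4), (0, 5), (1, 3), (1, 4), (1, 5), (2, 3), (2, 4), (2, 5)]

/-- **Wagner's theorem for nonplanar graphs**: a 3-connected graph with a `K33` model and without
`K5` model has a hub or is `V8`. -/
theorem wagner_nonplanar [Finite V] (h5 : ¬ K5M H)
    (h3 : ∀ a b : V, Con H {x | x ≠ a ∧ x ≠ b}) {f : Fin 6 → Set V} (hf : PM H L33 f) :
    (∃ w P, Hub H w P) ∨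
    ∃ w : Fin 8 → V, Bijective w ∧ ∀ i j, H.Adj (w i) (w j) ↔ ∃ k, j = i + dd k := by
  have hH : Con H Set.univ := by
    obtain ⟨a, ha⟩ := (hf.con 0).nonempty
    obtain ⟨b, hb⟩ := (hf.con 1).nonempty
    have hab : a ≠ b := by
      rintro rfl
      exact Set.disjoint_left.1 (hf.disj 0 1 (by decide)) ha hb
    obtain ⟨c, hc⟩ := (hf.con 2).nonempty
    -- `H - a` is connected and contains a neighbour of `a`
    obtain ⟨u, hu, v, hv, huv⟩ := hf.adj (0, 3) (by decide)
    have h4 := h3 u u
    have h6 : (Set.univ : Set V) = Insert.insert u {x | x ≠ u ∧ x ≠ u} := by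
      ext x
      simp only [Set.mem_univ, Set.mem_insert_iff, Set.mem_ofPred_eq, true_iff]
      by_cases hx : x = u
      · exact Or.inl hx
      · exact Or.inr ⟨hx, hx⟩
    rw [h6]
    have hvu : v ≠ u := huv.ne'
    exact h4.insert_adj (u := v) ⟨hvu, hvu⟩ huv
  by_cases h8 : V8M H
  · right
    obtain ⟨g, hg⟩ := h8
    obtain ⟨g', hg', hc, -⟩ := hg.spanning hH (by norm_num)
    exact lemmaV h5 hg' hc h3
  · left
    obtain ⟨g, hg, hc, -⟩ := hf.spanning hH (by norm_num)
    have hK : K33 H (![g 0, g 1, g 2]) (![g 3, g 4, g 5]) := by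
      refine ⟨?_, ?_, ?_, ?_, ?_, ?_, ?_⟩
      · intro i; fin_cases i
        exacts [hg.con 0, hg.con 1, hg.con 2]
      · intro i; fin_cases i
        exacts [hg.con 3, hg.con 4, hg.con 5]
      · intro i j hij
        fin_cases i <;> fin_cases j <;> first | exact absurd rfl hij | exact hg.disj _ _ (by decide)
      · intro i j hij
        fin_cases i <;> fin_cases j <;> first | exact absurd rfl hij | exact hg.disj _ _ (by decide)
      · intro i j
        fin_cases i <;> fin_cases j <;> exact hg.disj _ _ (by decide)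
      · intro i j
        fin_cases i <;> fin_cases j
        exacts [hg.adj (0, 3) (by decide), hg.adj (0, 4) (by decide), hg.adj (0, 5) (by decide),
          hg.adj (1, 3) (by decide), hg.adj (1, 4) (by decide), hg.adj (1, 5) (by decide),
          hg.adj (2, 3) (by decide), hg.adj (2, 4) (by decide), hg.adj (2, 5) (by decide)]
      · intro v
        obtain ⟨i, hi⟩ := hc v
        fin_cases i
        exacts [Or.inl ⟨0, hi⟩, Or.inl ⟨1, hi⟩, Or.inl ⟨2, hi⟩, Or.inr ⟨0, hi⟩, Or.inr ⟨1, hi⟩,
          Or.inr ⟨2, hi⟩]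
    exact lemmaK h5 h8 hK

end Helper19.Wag
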