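import Mathlib

/-!
# Connected sets and minor models in a simple graph
-/

namespace Helper19.Wag

variable {V : Type*} {H : SimpleGraph V}

/-- A connected (nonempty) set of vertices. -/
def Con (H : SimpleGraph V) (s : Set V) : Prop := (H.induce s).Connected

/-- Two sets of vertices are joined by an edge. -/
def SAdj (H : SimpleGraph V) (s t : Set V) : Prop := ∃ u ∈ s, ∃ v ∈ t, H.Adj u v

/-- The set `K` meets the set `N`. -/
def Meets (K N : Set V) : Prop := (K ∩ N).Nonempty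

/-- The vertices adjacent to a set. -/
def nb (H : SimpleGraph V) (s : Set V) : Set V := {v | ∃ u ∈ s, H.Adj u v}

lemma Con.nonempty {s : Set V} (h : Con H s) : s.Nonempty := by
  obtain ⟨x⟩ := SimpleGraph.Connected.nonempty h
  exact ⟨x.1, x.2⟩

lemma con_singleton (v : V) : Con H {v} := by
  unfold Con
  have : Nonempty ({v} : Set V) := ⟨⟨v, rfl⟩⟩
  refine ⟨fun a b => ?_⟩
  obtain ⟨a, rfl⟩ := a
  obtain ⟨b, rfl⟩ := b
  exact SimpleGraph.Reachable.refl _

lemma SAdj.symm {s t : Set V} (h : SAdj H s t) : SAdj H t s := by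
  obtain ⟨u, hu, v, hv, huv⟩ := h
  exact ⟨v, hv, u, hu, huv.symm⟩

lemma SAdj.mono {s t s' t' : Set V} (h : SAdj H s t) (hs : s ⊆ s') (ht : t ⊆ t') :
    SAdj H s' t' := by
  obtain ⟨u, hu, v, hv, huv⟩ := h
  exact ⟨u, hs hu, v, ht hv, huv⟩

lemma sAdj_union_left {s s' t : Set V} :
    SAdj H (s ∪ s') t ↔ SAdj H s t ∨ SAdj H s' t := by
  constructor
  · rintro ⟨u, hu | hu, v, hv, huv⟩
    · exact Or.inl ⟨u, hu, v, hv, huv⟩
    · exact Or.inr ⟨u, hu, v, hv, huv⟩
  · rintro (h | h)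
    · exact h.mono Set.subset_union_left subset_rfl
    · exact h.mono Set.subset_union_right subset_rfl

lemma meets_nb {K s : Set V} : Meets K (nb H s) ↔ SAdj H K s := by
  constructor
  · rintro ⟨v, hv, u, hu, huv⟩
    exact ⟨v, hv, u, hu, huv.symm⟩
  · rintro ⟨v, hv, u, hu, huv⟩
    exact ⟨v, hv, u, hu, huv.symm⟩

lemma Meets.mono {K K' N : Set V} (h : Meets K N) (hK : K ⊆ K') : Meets K' N := by
  obtain ⟨v, hv, hv'⟩ := h
  exact ⟨v, hK hv, hv'⟩

lemma meets_union {K K' N : Set V} : Meets (K ∪ K') N ↔ Meets K N ∨ Meets K' N := by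
  unfold Meets
  rw [Set.union_inter_distrib_right, Set.union_nonempty]

lemma Con.union {s t : Set V} (hs : Con H s) (ht : Con H t) (h : SAdj H s t) :
    Con H (s ∪ t) := by
  obtain ⟨u, hu, v, hv, huv⟩ := h
  exact SimpleGraph.connected_induce_union hs.preconnected ht.preconnected hu hv huv

lemma Con.union_of_inter {s t : Set V} (hs : Con H s) (ht : Con H t) (h : (s ∩ t).Nonempty) :
    Con H (s ∪ t) :=
  SimpleGraph.induce_union_connected hs.preconnected ht.preconnected h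

lemma Con.insert_adj {s : Set V} (hs : Con H s) {v u : V} (hu : u ∈ s) (h : H.Adj v u) :
    Con H (insert v s) := by
  rw [Set.insert_eq]
  exact (con_singleton v).union hs ⟨v, rfl, u, hu, h⟩

/-- A proper nonempty part of a connected set has an edge leaving it. -/
lemma Con.exists_adj {s A : Set V} (hs : Con H s) (hA : A ⊆ s) (hne : A.Nonempty)
    (hneq : A ≠ s) : ∃ u ∈ A, ∃ v ∈ s \ A, H.Adj u v := by
  by_contra hcon
  push Not at hcon
  obtain ⟨a, ha⟩ := hne
  obtain ⟨b, hb, hbA⟩ : ∃ b ∈ s, b ∉ A := by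
    by_contra h
    push Not at h
    exact hneq (Set.Subset.antisymm hA h)
  have h1 : ∀ (x y : s), (H.induce s).Reachable x y → x.1 ∈ A → y.1 ∈ A := by
    intro x y hxy
    obtain ⟨p⟩ := hxy
    induction p with
    | nil => exact id
    | cons hadj p ih =>
      intro hx
      apply ih
      by_contra hc
      exact hcon _ hx _ ⟨Subtype.property _, hc⟩ (by simpa using hadj)
  exact hbA (h1 ⟨a, hA ha⟩ ⟨b, hb⟩ (SimpleGraph.Connected.preconnected hs _ _) ha)

lemma con_of_star {S : Set V} {z : V} (hz : z ∈ S)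
    (h : ∀ v ∈ S, ∃ K ⊆ S, Con H K ∧ z ∈ K ∧ v ∈ K) : Con H S := by
  apply SimpleGraph.induce_connected_of_patches z hz
  intro v hv
  obtain ⟨K, hKS, hK, hzK, hvK⟩ := h v hv
  exact ⟨K, hKS, hzK, hvK, SimpleGraph.Connected.preconnected hK _ _⟩

/-- The component of `v` in the set `S`. -/
def comp (H : SimpleGraph V) (S : Set V) (v : V) : Set V :=
  ⋃₀ {K | K ⊆ S ∧ Con H K ∧ v ∈ K}

lemma comp_subset (S : Set V) (v : V) : comp H S v ⊆ S :=
  Set.sUnion_subset fun _ hK => hK.1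

lemma mem_comp_self {S : Set V} {v : V} (hv : v ∈ S) : v ∈ comp H S v :=
  ⟨{v}, ⟨Set.singleton_subset_iff.2 hv, con_singleton v, rfl⟩, rfl⟩

lemma subset_comp {S K : Set V} {v : V} (hKS : K ⊆ S) (hK : Con H K) (hv : v ∈ K) :
    K ⊆ comp H S v := fun _ hx => ⟨K, ⟨hKS, hK, hv⟩, hx⟩

lemma comp_con {S : Set V} {v : V} (hv : v ∈ S) : Con H (comp H S v) := by
  apply con_of_star (mem_comp_self hv)
  rintro u ⟨K, ⟨hKS, hK, hvK⟩, huK⟩
  exact ⟨K, subset_comp hKS hK hvK, hK, hvK, huK⟩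

lemma comp_closed {S : Set V} {v u w : V} (hu : u ∈ comp H S v) (hw : w ∈ S)
    (huw : H.Adj u w) : w ∈ comp H S v := by
  obtain ⟨K, ⟨hKS, hK, hvK⟩, huK⟩ := hu
  refine ⟨insert w K, ⟨Set.insert_subset hw hKS, hK.insert_adj huK huw.symm,
    Set.mem_insert_of_mem _ hvK⟩, Set.mem_insert _ _⟩

lemma comp_eq_of_mem {S : Set V} {v u : V} (hu : u ∈ comp H S v) :
    comp H S u = comp H S v := by
  obtain ⟨K, ⟨hKS, hK, hvK⟩, huK⟩ := hu
  have hvS := hKS hvK
  have huS := hKS huK
  apply Set.Subset.antisymm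
  · have h1 := (comp_con (H := H) huS)
    exact subset_comp (comp_subset S u) h1 (subset_comp hKS hK huK hvK)
  · have h1 := (comp_con (H := H) hvS)
    exact subset_comp (comp_subset S v) h1 (subset_comp hKS hK hvK huK)

/-- Every connected set with at least two vertices has a vertex which is not a cut vertex. -/
lemma Con.exists_diff [Finite V] {s : Set V} (hs : Con H s) (h2 : s.Nontrivial) :
    ∃ v ∈ s, Con H (s \ {v}) := by
  classical
  obtain ⟨a, ha⟩ := hs.nonempty
  set F : Set (Set V) := {Y | Y ⊆ s ∧ Y ≠ s ∧ Con H Y} with hF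
  have hFne : F.Nonempty := by
    refine ⟨{a}, Set.singleton_subset_iff.2 ha, ?_, con_singleton a⟩
    intro h
    rw [← h] at h2
    exact Set.not_nontrivial_singleton h2
  obtain ⟨Y, hY, hmax⟩ := Set.Finite.exists_maximal (Set.toFinite F) hFne
  obtain ⟨hYs, hYne, hYc⟩ := hY
  obtain ⟨u, hu, v, hv, huv⟩ := hs.exists_adj hYs hYc.nonempty hYne
  have h1 : insert v Y = s := by
    by_contra hc
    have h3 : insert v Y ∈ F :=
      ⟨Set.insert_subset hv.1 hYs, hc, hYc.insert_adj hu huv.symm⟩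
    have h4 := hmax h3 (Set.subset_insert v Y)
    exact hv.2 (h4 (Set.mem_insert v Y))
  refine ⟨v, hv.1, ?_⟩
  have h2 : s \ {v} = Y := by
    rw [← h1, Set.insert_sdiff_of_mem _ (Set.mem_singleton v), Set.sdiff_singleton_eq_self hv.2]
  rw [h2]
  exact hYc

end Helper19.Wag
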