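import Pool.Agent.Helper19.Wag.Minor

/-!
# `K33` models: the finite checks
-/

namespace Helper19.Wag

variable {V : Type*} {H : SimpleGraph V}

/-- A spanning `K33` model. -/
structure K33 (H : SimpleGraph V) (P Q : Fin 3 → Set V) : Prop where
  conP : ∀ i, Con H (P i)
  conQ : ∀ j, Con H (Q j)
  disjP : ∀ i j, i ≠ j → Disjoint (P i) (P j)
  disjQ : ∀ i j, i ≠ j → Disjoint (Q i) (Q j)
  disjPQ : ∀ i j, Disjoint (P i) (Q j)
  adj : ∀ i j, SAdj H (P i) (Q j)
  cover : ∀ v, (∃ i, v ∈ P i) ∨ ∃ j, v ∈ Q j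

/-- no edges between different sets of the family -/
def Free (H : SimpleGraph V) (P : Fin 3 → Set V) : Prop := ∀ i j, i ≠ j → ¬ SAdj H (P i) (P j)

lemma K33.symm {P Q : Fin 3 → Set V} (h : K33 H P Q) : K33 H Q P where
  conP := h.conQ
  conQ := h.conP
  disjP := h.disjQ
  disjQ := h.disjP
  disjPQ i j := (h.disjPQ j i).symm
  adj i j := (h.adj j i).symm
  cover v := (h.cover v).symm

lemma K33.big {P Q : Fin 3 → Set V} (h : K33 H P Q) : ∀ s t : Fin 3 ⊕ Fin 3, s ≠ t →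
    Disjoint (Sum.elim P Q s) (Sum.elim P Q t) := by
  rintro (i | i) (j | j) hij
  · exact h.disjP i j (fun h => hij (by rw [h]))
  · exact h.disjPQ i j
  · exact (h.disjPQ j i).symm
  · exact h.disjQ i j (fun h => hij (by rw [h]))

/-- (F1) -/
lemma K33.f1 {P Q : Fin 3 → Set V} (h : K33 H P Q) {i m j k : Fin 3} (him : i ≠ m)
    (hP : SAdj H (P i) (P m)) (hjk : j ≠ k) (hQ : SAdj H (Q j) (Q k)) : K5M H := by
  obtain ⟨n, hni, hnm, -⟩ := fin3_third i m him
  obtain ⟨l, hlj, hlk, -⟩ := fin3_third j k hjk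
  have hpm : PM H [(0, 3), (0, 4), (0, 5), (1, 3), (1, 4), (1, 5), (2, 3), (2, 4), (2, 5),
      (0, 1), (3, 4)] (![P i, P m, P n, Q j, Q k, Q l] : Fin 6 → Set V) := by
    refine ⟨?_, ?_, ?_⟩
    · intro a
      fin_cases a
      exacts [h.conP i, h.conP m, h.conP n, h.conQ j, h.conQ k, h.conQ l]
    · refine disj_of_parent h.big (![.inl i, .inl m, .inl n, .inr j, .inr k, .inr l]) ?_ ?_
      · intro a; fin_cases a <;> exact subset_rfl
      · intro a b hab hp
        fin_cases a <;> fin_cases b <;> simp_all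
    · simp [h.adj, hP, hQ]
  exact (hpm.comp ![[0], [1], [5, 2], [3], [4]] L5 (by decide)).k5

/-- The two parts of a connected set are adjacent. -/
lemma Con.split_adj {W U U' : Set V} (hW : Con H W) (hU : U ∪ U' = W) (hd : Disjoint U U')
    (h1 : U.Nonempty) (h2 : U'.Nonempty) : SAdj H U U' := by
  have h3 : U ≠ W := by
    rintro rfl
    obtain ⟨x, hx⟩ := h2
    exact Set.disjoint_left.1 hd (hU ▸ Or.inr hx) hx
  obtain ⟨u, hu, v, hv, huv⟩ := hW.exists_adj (hU ▸ Set.subset_union_left) h1 h3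
  refine ⟨u, hu, v, ?_, huv⟩
  have := hv.1
  rw [← hU] at this
  exact this.resolve_left hv.2

/-- neighbours of a family -/
def nbs (H : SimpleGraph V) (P : Fin 3 → Set V) : Fin 3 → Set V := fun i => nb H (P i)

lemma meets_nbs {K : Set V} {P : Fin 3 → Set V} {i : Fin 3} :
    Meets K (nbs H P i) ↔ SAdj H K (P i) := meets_nb

/-- (N1), the split set -/
lemma K33.n1_aux {P Q : Fin 3 → Set V} (h : K33 H P Q) {j k l : Fin 3} (hjk : j ≠ k)
    (hjl : j ≠ l) (hkl : k ≠ l) {U U' : Set V} (hU : U ∪ U' = Q j) (hd : Disjoint U U')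
    (h1 : Con H U) (h2 : Con H U') {a b c : Fin 3} (hab : a ≠ b) (hac : a ≠ c) (hbc : b ≠ c)
    (hUa : SAdj H U (P a)) (hUb : SAdj H U (P b)) (hUa' : SAdj H U' (P a))
    (hUc : SAdj H U' (P c)) (hx : SAdj H U (Q k)) : K5M H := by
  have hUU := (h.conQ j).split_adj hU hd h1.nonempty h2.nonempty
  have hd' := hd.symm
  have hs1 : U ⊆ Q j := hU ▸ Set.subset_union_left
  have hs2 : U' ⊆ Q j := hU ▸ Set.subset_union_right
  have hpm : PM H [(3, 4), (3, 0), (3, 1), (4, 0), (4, 2), (0, 5), (0, 6), (1, 5), (1, 6),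
      (2, 5), (2, 6), (3, 5)] (![P a, P b, P c, U, U', Q k, Q l] : Fin 7 → Set V) := by
    refine ⟨?_, ?_, ?_⟩
    · intro x
      fin_cases x
      exacts [h.conP a, h.conP b, h.conP c, h1, h2, h.conQ k, h.conQ l]
    · refine disj_of_parent h.big (![.inl a, .inl b, .inl c, .inr j, .inr j, .inr k, .inr l])
        ?_ ?_
      · intro x
        fin_cases x
        exacts [subset_rfl, subset_rfl, subset_rfl, hs1, hs2, subset_rfl, subset_rfl]
      · intro x y hxy hp
        fin_cases x <;> fin_cases y <;> simp_all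
    · simp [h.adj, hUU, hUa, hUb, hUa', hUc, hx]
  exact (hpm.comp ![[0], [6, 1], [4, 2], [3], [5]] L5 (by decide)).k5

/-- (N1), the other two sets -/
lemma K33.n1_aux' {P Q : Fin 3 → Set V} (h : K33 H P Q) {j k l : Fin 3} (hjk : j ≠ k)
    (hjl : j ≠ l) (hkl : k ≠ l) {U U' : Set V} (hU : U ∪ U' = Q j) (hd : Disjoint U U')
    (h1 : Con H U) (h2 : Con H U') {a b c : Fin 3} (hab : a ≠ b) (hac : a ≠ c) (hbc : b ≠ c)
    (hUa : SAdj H U (P a)) (hUb : SAdj H U (P b)) (hUa' : SAdj H U' (P a))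
    (hUc : SAdj H U' (P c)) (hx : SAdj H (Q k) (Q l)) : K5M H := by
  have hUU := (h.conQ j).split_adj hU hd h1.nonempty h2.nonempty
  have hd' := hd.symm
  have hs1 : U ⊆ Q j := hU ▸ Set.subset_union_left
  have hs2 : U' ⊆ Q j := hU ▸ Set.subset_union_right
  have hpm : PM H [(3, 4), (3, 0), (3, 1), (4, 0), (4, 2), (0, 5), (0, 6), (1, 5), (1, 6),
      (2, 5), (2, 6), (5, 6)] (![P a, P b, P c, U, U', Q k, Q l] : Fin 7 → Set V) := by
    refine ⟨?_, ?_, ?_⟩
    · intro x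
      fin_cases x
      exacts [h.conP a, h.conP b, h.conP c, h1, h2, h.conQ k, h.conQ l]
    · refine disj_of_parent h.big (![.inl a, .inl b, .inl c, .inr j, .inr j, .inr k, .inr l])
        ?_ ?_
      · intro x
        fin_cases x
        exacts [subset_rfl, subset_rfl, subset_rfl, hs1, hs2, subset_rfl, subset_rfl]
      · intro x y hxy hp
        fin_cases x <;> fin_cases y <;> simp_all
    · simp [h.adj, hUU, hUa, hUb, hUa', hUc, hx]
  exact (hpm.comp ![[0], [3, 1], [4, 2], [5], [6]] L5 (by decide)).k5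

/-- (N1) -/
theorem K33.n1 {P Q : Fin 3 → Set V} (h : K33 H P Q) (h5 : ¬ K5M H) {j : Fin 3}
    (hB : TypeB H (Q j) (nbs H P)) : Free H Q := by
  obtain ⟨U, U', hU, hd, h1, h2, a, b, c, hab, hac, hbc, hUa, hUb, hUa', hUc⟩ := hB
  rw [meets_nbs] at hUa hUb hUa' hUc
  -- an edge between `Q j` and `Q k`
  have key : ∀ k, j ≠ k → ¬ SAdj H (Q j) (Q k) := by
    intro k hjk hx
    obtain ⟨l, hlj, hlk, -⟩ := fin3_third j k hjk
    rw [← hU, sAdj_union_left] at hx
    rcases hx with hx | hx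
    · exact h5 (h.n1_aux hjk hlj.symm hlk.symm hU hd h1 h2 hab hac hbc hUa hUb hUa' hUc hx)
    · exact h5 (h.n1_aux hjk hlj.symm hlk.symm (Set.union_comm U U' ▸ hU) hd.symm h2 h1 hac hab
        hbc.symm hUa' hUc hUa hUb hx)
  intro k l hkl hx
  by_cases hk : j = k
  · subst hk; exact key l hkl hx
  by_cases hl : j = l
  · subst hl; exact key k hk hx.symm
  · exact h5 (h.n1_aux' hk hl hkl hU hd h1 h2 hab hac hbc hUa hUb hUa' hUc hx)

/-- The data of a doubled split of `Q j`, with respect to the family `P`. -/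
structure Spl (H : SimpleGraph V) (P : Fin 3 → Set V) (W U U' : Set V) (a b c : Fin 3) :
    Prop where
  un : U ∪ U' = W
  dis : Disjoint U U'
  c1 : Con H U
  c2 : Con H U'
  ab : a ≠ b
  ac : a ≠ c
  bc : b ≠ c
  a1 : SAdj H U (P a)
  b1 : SAdj H U (P b)
  a2 : SAdj H U' (P a)
  c3 : SAdj H U' (P c)

lemma TypeB.spl {P : Fin 3 → Set V} {W : Set V} (hB : TypeB H W (nbs H P)) :
    ∃ U U' a b c, Spl H P W U U' a b c := by
  obtain ⟨U, U', hU, hd, h1, h2, a, b, c, hab, hac, hbc, hUa, hUb, hUa', hUc⟩ := hB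
  rw [meets_nbs] at hUa hUb hUa' hUc
  exact ⟨U, U', a, b, c, hU, hd, h1, h2, hab, hac, hbc, hUa, hUb, hUa', hUc⟩

lemma Spl.swap {P : Fin 3 → Set V} {W U U' : Set V} {a b c : Fin 3}
    (h : Spl H P W U U' a b c) : Spl H P W U' U a c b :=
  ⟨by rw [Set.union_comm]; exact h.un, h.dis.symm, h.c2, h.c1, h.ac, h.ab, h.bc.symm, h.a2, h.c3,
    h.a1, h.b1⟩

/-- case: both doubled indices agree -/
lemma K33.n2_aa {P Q : Fin 3 → Set V} (h : K33 H P Q) {b c i j y z : Fin 3}
    {U U' T T' : Set V} (hQ : Spl H P (Q j) U U' i b c) (hP : Spl H Q (P i) T T' j y z) :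
    V8M H := by
  have hUU := (h.conQ j).split_adj hQ.un hQ.dis hQ.c1.nonempty hQ.c2.nonempty
  have hTT := (h.conP i).split_adj hP.un hP.dis hP.c1.nonempty hP.c2.nonempty
  have hd := hQ.dis
  have hd' := hQ.dis.symm
  have he := hP.dis
  have he' := hP.dis.symm
  have hs1 : U ⊆ Q j := hQ.un ▸ Set.subset_union_left
  have hs2 : U' ⊆ Q j := hQ.un ▸ Set.subset_union_right
  have ht1 : T ⊆ P i := hP.un ▸ Set.subset_union_left
  have ht2 : T' ⊆ P i := hP.un ▸ Set.subset_union_right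
  have e1 := hQ.ab
  have e2 := hQ.ac
  have e3 := hQ.bc
  have e4 := hP.ab
  have e5 := hP.ac
  have e6 := hP.bc
  have hpm : ∀ p : Fin 8 × Fin 8, ∀ q : Fin 8 × Fin 8,
      SAdj H ((![T, T', P b, P c, U, U', Q y, Q z] : Fin 8 → Set V) p.1)
        ((![T, T', P b, P c, U, U', Q y, Q z] : Fin 8 → Set V) p.2) →
      SAdj H ((![T, T', P b, P c, U, U', Q y, Q z] : Fin 8 → Set V) q.1)
        ((![T, T', P b, P c, U, U', Q y, Q z] : Fin 8 → Set V) q.2) →
      PM H [(0, 1), (4, 5), (0, 6), (1, 7), (4, 2), (5, 3), (2, 6), (2, 7), (3, 6), (3, 7), p, q]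
      (![T, T', P b, P c, U, U', Q y, Q z] : Fin 8 → Set V) := by
    intro p q hp hq
    refine ⟨?_, ?_, ?_⟩
    · intro x
      fin_cases x
      exacts [hP.c1, hP.c2, h.conP b, h.conP c, hQ.c1, hQ.c2, h.conQ y, h.conQ z]
    · refine disj_of_parent h.big (![.inl i, .inl i, .inl b, .inl c, .inr j, .inr j, .inr y,
        .inr z]) ?_ ?_
      · intro x
        fin_cases x
        exacts [ht1, ht2, subset_rfl, subset_rfl, hs1, hs2, subset_rfl, subset_rfl]
      · intro x y hxy hp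
        fin_cases x <;> fin_cases y <;> simp_all
    · intro r hr
      simp only [List.mem_cons, List.not_mem_nil, or_false] at hr
      rcases hr with rfl | rfl | rfl | rfl | rfl | rfl | rfl | rfl | rfl | rfl | rfl | rfl
      exacts [hTT, hUU, hP.b1, hP.c3, hQ.b1, hQ.c3, h.adj _ _, h.adj _ _, h.adj _ _, h.adj _ _,
        hp, hq]
  have hT := hP.a1
  have hT' := hP.a2
  have hUa := hQ.a1
  have hUa' := hQ.a2
  rw [← hQ.un] at hT hT'
  rw [← hP.un] at hUa hUa'
  have hT2 := (sAdj_union_left.1 hT.symm)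
  have hT2' := (sAdj_union_left.1 hT'.symm)
  have hU2 := (sAdj_union_left.1 hUa.symm)
  have hU2' := (sAdj_union_left.1 hUa'.symm)
  have case1 : SAdj H T U → SAdj H T' U' → V8M H := fun h1 h2 =>
    ⟨_, (hpm (0, 4) (1, 5) h1 h2).comp ![[0], [1], [7], [2], [4], [5], [3], [6]] L8 (by decide)⟩
  have case2 : SAdj H T U' → SAdj H T' U → V8M H := fun h1 h2 =>
    ⟨_, (hpm (0, 5) (1, 4) h1 h2).comp ![[0], [1], [7], [3], [5], [4], [2], [6]] L8 (by decide)⟩
  rcases hT2 with h1 | h1 <;> rcases hT2' with h2 | h2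
  · rcases hU2' with h3 | h3
    · exact case2 h3 h2.symm
    · exact case1 h1.symm h3
  · exact case1 h1.symm h2.symm
  · exact case2 h1.symm h2.symm
  · rcases hU2 with h3 | h3
    · exact case1 h3 h2.symm
    · exact case2 h1.symm h3

/-- case: one doubled index agrees -/
lemma K33.n2_ay {P Q : Fin 3 → Set V} (h : K33 H P Q) {b c i j x z : Fin 3}
    {U U' T T' : Set V} (hQ : Spl H P (Q j) U U' i b c) (hP : Spl H Q (P i) T T' x j z) :
    K5M H := by
  have hUU := (h.conQ j).split_adj hQ.un hQ.dis hQ.c1.nonempty hQ.c2.nonempty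
  have hTT := (h.conP i).split_adj hP.un hP.dis hP.c1.nonempty hP.c2.nonempty
  have hd := hQ.dis
  have hd' := hQ.dis.symm
  have he := hP.dis
  have he' := hP.dis.symm
  have hs1 : U ⊆ Q j := hQ.un ▸ Set.subset_union_left
  have hs2 : U' ⊆ Q j := hQ.un ▸ Set.subset_union_right
  have ht1 : T ⊆ P i := hP.un ▸ Set.subset_union_left
  have ht2 : T' ⊆ P i := hP.un ▸ Set.subset_union_right
  have e1 := hQ.ab
  have e2 := hQ.ac
  have e3 := hQ.bc
  have e4 := hP.ab
  have e5 := hP.ac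
  have e6 := hP.bc
  have hpm : ∀ p : Fin 8 × Fin 8, ∀ q : Fin 8 × Fin 8,
      SAdj H ((![T, T', P b, P c, U, U', Q x, Q z] : Fin 8 → Set V) p.1)
        ((![T, T', P b, P c, U, U', Q x, Q z] : Fin 8 → Set V) p.2) →
      SAdj H ((![T, T', P b, P c, U, U', Q x, Q z] : Fin 8 → Set V) q.1)
        ((![T, T', P b, P c, U, U', Q x, Q z] : Fin 8 → Set V) q.2) →
      PM H [(0, 1), (4, 5), (0, 6), (1, 6), (1, 7), (4, 2), (5, 3), (2, 6), (2, 7), (3, 6),
        (3, 7), p, q] (![T, T', P b, P c, U, U', Q x, Q z] : Fin 8 → Set V) := by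
    intro p q hp hq
    refine ⟨?_, ?_, ?_⟩
    · intro x
      fin_cases x
      exacts [hP.c1, hP.c2, h.conP b, h.conP c, hQ.c1, hQ.c2, h.conQ _, h.conQ z]
    · refine disj_of_parent h.big (![.inl i, .inl i, .inl b, .inl c, .inr j, .inr j, .inr x,
        .inr z]) ?_ ?_
      · intro x
        fin_cases x
        exacts [ht1, ht2, subset_rfl, subset_rfl, hs1, hs2, subset_rfl, subset_rfl]
      · intro x y hxy hp
        fin_cases x <;> fin_cases y <;> simp_all
    · intro r hr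
      simp only [List.mem_cons, List.not_mem_nil, or_false] at hr
      rcases hr with rfl | rfl | rfl | rfl | rfl | rfl | rfl | rfl | rfl | rfl | rfl | rfl | rfl
      exacts [hTT, hUU, hP.a1, hP.a2, hP.c3, hQ.b1, hQ.c3, h.adj _ _, h.adj _ _, h.adj _ _,
        h.adj _ _, hp, hq]
  have hT := hP.b1
  have hUa := hQ.a1
  have hUa' := hQ.a2
  rw [← hQ.un] at hT
  rw [← hP.un] at hUa hUa'
  have hT2 := (sAdj_union_left.1 hT.symm)
  have hU2 := (sAdj_union_left.1 hUa.symm)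
  have hU2' := (sAdj_union_left.1 hUa'.symm)
  have case1 : SAdj H T U → SAdj H T U' → K5M H := fun h1 h2 =>
    ((hpm (0, 4) (0, 5) h1 h2).comp ![[0], [7, 1], [4, 2], [5, 3], [6]] L5 (by decide)).k5
  have case2 : SAdj H T U → SAdj H T' U' → K5M H := fun h1 h2 =>
    ((hpm (0, 4) (1, 5) h1 h2).comp ![[4, 0], [1], [7, 2], [5, 3], [6]] L5 (by decide)).k5
  have case3 : SAdj H T U' → SAdj H T' U → K5M H := fun h1 h2 =>
    ((hpm (0, 5) (1, 4) h1 h2).comp ![[5, 0], [1], [4, 2], [7, 3], [6]] L5 (by decide)).k5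
  rcases hT2 with h1 | h1
  · rcases hU2' with h3 | h3
    · exact case1 h1.symm h3
    · exact case2 h1.symm h3
  · rcases hU2 with h3 | h3
    · exact case1 h3 h1.symm
    · exact case3 h1.symm h3

/-- case: no doubled index agrees -/
lemma K33.n2_by {P Q : Fin 3 → Set V} (h : K33 H P Q) {a c i j x z : Fin 3}
    {U U' T T' : Set V} (hQ : Spl H P (Q j) U U' a i c) (hP : Spl H Q (P i) T T' x j z) :
    K5M H := by
  have hUU := (h.conQ j).split_adj hQ.un hQ.dis hQ.c1.nonempty hQ.c2.nonempty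
  have hTT := (h.conP i).split_adj hP.un hP.dis hP.c1.nonempty hP.c2.nonempty
  have hd := hQ.dis
  have hd' := hQ.dis.symm
  have he := hP.dis
  have he' := hP.dis.symm
  have hs1 : U ⊆ Q j := hQ.un ▸ Set.subset_union_left
  have hs2 : U' ⊆ Q j := hQ.un ▸ Set.subset_union_right
  have ht1 : T ⊆ P i := hP.un ▸ Set.subset_union_left
  have ht2 : T' ⊆ P i := hP.un ▸ Set.subset_union_right
  have e1 := hQ.ab
  have e2 := hQ.ac
  have e3 := hQ.bc
  have e4 := hP.ab
  have e5 := hP.ac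
  have e6 := hP.bc
  have hpm : ∀ p : Fin 8 × Fin 8, ∀ q : Fin 8 × Fin 8,
      SAdj H ((![T, T', P a, P c, U, U', Q x, Q z] : Fin 8 → Set V) p.1)
        ((![T, T', P a, P c, U, U', Q x, Q z] : Fin 8 → Set V) p.2) →
      SAdj H ((![T, T', P a, P c, U, U', Q x, Q z] : Fin 8 → Set V) q.1)
        ((![T, T', P a, P c, U, U', Q x, Q z] : Fin 8 → Set V) q.2) →
      PM H [(0, 1), (4, 5), (0, 6), (1, 6), (1, 7), (4, 2), (5, 2), (5, 3), (2, 6), (2, 7),
        (3, 6), (3, 7), p, q] (![T, T', P a, P c, U, U', Q x, Q z] : Fin 8 → Set V) := by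
    intro p q hp hq
    refine ⟨?_, ?_, ?_⟩
    · intro x
      fin_cases x
      exacts [hP.c1, hP.c2, h.conP a, h.conP c, hQ.c1, hQ.c2, h.conQ _, h.conQ z]
    · refine disj_of_parent h.big (![.inl i, .inl i, .inl a, .inl c, .inr j, .inr j, .inr x,
        .inr z]) ?_ ?_
      · intro x
        fin_cases x
        exacts [ht1, ht2, subset_rfl, subset_rfl, hs1, hs2, subset_rfl, subset_rfl]
      · intro x y hxy hp
        fin_cases x <;> fin_cases y <;> simp_all
    · intro r hr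
      simp only [List.mem_cons, List.not_mem_nil, or_false] at hr
      rcases hr with rfl | rfl | rfl | rfl | rfl | rfl | rfl | rfl | rfl | rfl | rfl | rfl | rfl |
        rfl
      exacts [hTT, hUU, hP.a1, hP.a2, hP.c3, hQ.a1, hQ.a2, hQ.c3, h.adj _ _, h.adj _ _,
        h.adj _ _, h.adj _ _, hp, hq]
  have hT := hP.b1
  have hUa := hQ.b1
  rw [← hQ.un] at hT
  rw [← hP.un] at hUa
  have hT2 := (sAdj_union_left.1 hT.symm)
  have hU2 := (sAdj_union_left.1 hUa.symm)
  have case1 : SAdj H T U → K5M H := fun h1 =>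
    ((hpm (0, 4) (0, 4) h1 h1).comp ![[4, 0], [7, 1], [2], [5, 3], [6]] L5 (by decide)).k5
  have case2 : SAdj H T U' → SAdj H T' U → K5M H := fun h1 h2 =>
    ((hpm (0, 5) (1, 4) h1 h2).comp ![[5, 0], [4, 1], [2], [7, 3], [6]] L5 (by decide)).k5
  rcases hT2 with h1 | h1
  · exact case1 h1.symm
  · rcases hU2 with h3 | h3
    · exact case1 h3
    · exact case2 h1.symm h3

lemma fin3_cases : ∀ i a b c : Fin 3, a ≠ b → a ≠ c → b ≠ c → i = a ∨ i = b ∨ i = c := by
  decide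

/-- (N2) -/
theorem K33.n2 {P Q : Fin 3 → Set V} (h : K33 H P Q) {i j : Fin 3}
    (hQ : TypeB H (Q j) (nbs H P)) (hP : TypeB H (P i) (nbs H Q)) : K5M H ∨ V8M H := by
  obtain ⟨U, U', a, b, c, hQ⟩ := hQ.spl
  obtain ⟨T, T', x, y, z, hP⟩ := hP.spl
  -- doubled index of `P i` is `j`, index `i` is single
  have key : ∀ {P Q : Fin 3 → Set V} (_ : K33 H P Q) {i j : Fin 3} {U U' T T' : Set V}
      {a b c x y z : Fin 3}, Spl H P (Q j) U U' a b c → Spl H Q (P i) T T' x y z →
      i = a → K5M H ∨ V8M H := by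
    intro P Q h i j U U' T T' a b c x y z hQ hP hia
    subst hia
    rcases fin3_cases j x y z hP.ab hP.ac hP.bc with rfl | rfl | rfl
    · exact Or.inr (h.n2_aa hQ hP)
    · exact Or.inl (h.n2_ay hQ hP)
    · exact Or.inl (h.n2_ay hQ hP.swap)
  rcases fin3_cases i a b c hQ.ab hQ.ac hQ.bc with hi | hi | hi
  · exact key h hQ hP hi
  · subst hi
    rcases fin3_cases j x y z hP.ab hP.ac hP.bc with hj | rfl | rfl
    · exact key h.symm hP hQ hj
    · exact Or.inl (h.n2_by hQ hP)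
    · exact Or.inl (h.n2_by hQ hP.swap)
  · subst hi
    rcases fin3_cases j x y z hP.ab hP.ac hP.bc with hj | rfl | rfl
    · exact key h.symm hP hQ hj
    · exact Or.inl (h.n2_by hQ.swap hP)
    · exact Or.inl (h.n2_by hQ.swap hP.swap)

end Helper19.Wag
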