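import Pool.Agent.Helper19.Wag.K33

/-!
# Lemma K: a `K33` model without `K5` and `V8` models gives a hub
-/

namespace Helper19.Wag

open Function

variable {V : Type*} {H : SimpleGraph V}

/-- A hub: three vertices `w j` and three disjoint connected sets `P i` such that all edges leaving
`P i` go to the vertices `w j`, and all three `w j` have neighbours in `P i`. -/
structure Hub (H : SimpleGraph V) (w : Fin 3 → V) (P : Fin 3 → Set V) : Prop where
  inj : Injective w
  con : ∀ i, Con H (P i)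
  disj : ∀ i j, i ≠ j → Disjoint (P i) (P j)
  nmem : ∀ i j, w j ∉ P i
  nb : ∀ i, ∀ u ∈ P i, ∀ v, H.Adj u v → v ∈ P i ∨ ∃ j, v = w j
  adj : ∀ i j, ∃ u ∈ P i, H.Adj u (w j)

section congr

variable {W : Set V} {N N' : Fin 3 → Set V}

lemma atMost_congr {X : Set V} (h : ∀ i, Meets X (N i) ↔ Meets X (N' i)) :
    AtMost X N ↔ AtMost X N' := by
  unfold AtMost
  simp only [h]

lemma TypeA.congr (hA : TypeA H W N) (h : ∀ X ⊆ W, ∀ i, Meets X (N i) ↔ Meets X (N' i)) :
    TypeA H W N' := by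
  obtain ⟨w, hw, hA⟩ := hA
  refine ⟨w, hw, fun K hK hKc => (atMost_congr (h K fun x hx => (hK hx).1)).1 (hA K hK hKc)⟩

lemma TypeB.congr (hB : TypeB H W N) (h : ∀ X ⊆ W, ∀ i, Meets X (N i) ↔ Meets X (N' i)) :
    TypeB H W N' := by
  obtain ⟨U, U', hU, hd, h1, h2, a, b, c, hab, hac, hbc, hUa, hUb, hUa', hUc⟩ := hB
  have hs1 : U ⊆ W := hU ▸ Set.subset_union_left
  have hs2 : U' ⊆ W := hU ▸ Set.subset_union_right
  exact ⟨U, U', hU, hd, h1, h2, a, b, c, hab, hac, hbc, (h _ hs1 _).1 hUa, (h _ hs1 _).1 hUb,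
    (h _ hs2 _).1 hUa', (h _ hs2 _).1 hUc⟩

lemma TypeC.congr (hC : TypeC H W N) (h : ∀ X ⊆ W, ∀ i, Meets X (N i) ↔ Meets X (N' i)) :
    TypeC H W N' := by
  obtain ⟨U, hU, hd, hc, ha, hm, hm'⟩ := hC
  have hs : ∀ i, U i ⊆ W := fun i x hx => (hU x).2 ⟨i, hx⟩
  exact ⟨U, hU, hd, hc, ha, fun i => (h _ (hs i) _).1 (hm i),
    fun i j hj => hm' i j ((h _ (hs i) _).2 hj)⟩

end congr

section move

variable {P Q : Fin 3 → Set V}

/-- Moving `K` from `P i` to `Q j`. -/
lemma K33.move (h : K33 H P Q) {i j : Fin 3} {K : Set V} (hKs : K ⊆ P i) (hK : Con H K)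
    (hK' : Con H (P i \ K)) (hKj : SAdj H K (Q j)) (hKo : ∀ l, SAdj H K (Q l) → l = j) :
    K33 H (update P i (P i \ K)) (update Q j (Q j ∪ K)) := by
  have hP : ∀ k, update P i (P i \ K) k ⊆ P k := by
    intro k
    by_cases hk : k = i
    · subst hk; rw [update_self]; exact Set.sdiff_subset
    · rw [update_of_ne hk]
  have hQ : ∀ l, Q l ⊆ update Q j (Q j ∪ K) l := by
    intro l
    by_cases hl : l = j
    · subst hl; rw [update_self]; exact Set.subset_union_left
    · rw [update_of_ne hl]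
  have hPK : ∀ k, Disjoint (update P i (P i \ K) k) K := by
    intro k
    by_cases hk : k = i
    · subst hk; rw [update_self]; exact Set.disjoint_sdiff_left
    · rw [update_of_ne hk]; exact (h.disjP k i hk).mono_right hKs
  refine ⟨?_, ?_, ?_, ?_, ?_, ?_, ?_⟩
  · intro k
    by_cases hk : k = i
    · subst hk; rw [update_self]; exact hK'
    · rw [update_of_ne hk]; exact h.conP k
  · intro l
    by_cases hl : l = j
    · subst hl; rw [update_self]; exact (h.conQ l).union hK hKj.symm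
    · rw [update_of_ne hl]; exact h.conQ l
  · intro k l hkl
    exact (h.disjP k l hkl).mono (hP k) (hP l)
  · intro k l hkl
    have h1 : ∀ m, m ≠ j → Disjoint (update Q j (Q j ∪ K) j) (Q m) := by
      intro m hm
      rw [update_self, Set.disjoint_union_left]
      exact ⟨h.disjQ j m hm.symm, (h.disjPQ i m).mono_left hKs⟩
    by_cases hk : k = j
    · subst hk
      rw [update_of_ne hkl.symm]
      exact h1 l hkl.symm
    · rw [update_of_ne hk]
      by_cases hl : l = j
      · subst hl; exact (h1 k hk).symm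
      · rw [update_of_ne hl]; exact h.disjQ k l hkl
  · intro k l
    by_cases hl : l = j
    · subst hl
      rw [update_self, Set.disjoint_union_right]
      exact ⟨(h.disjPQ k l).mono_left (hP k), hPK k⟩
    · rw [update_of_ne hl]; exact (h.disjPQ k l).mono_left (hP k)
  · intro k l
    by_cases hk : k = i
    · subst hk
      rw [update_self]
      by_cases hl : l = j
      · subst hl
        rw [update_self]
        have h1 : SAdj H (P k \ K) K := (h.conP k).split_adj (Set.sdiff_union_of_subset hKs)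
          Set.disjoint_sdiff_left hK'.nonempty hK.nonempty
        exact h1.mono subset_rfl Set.subset_union_right
      · rw [update_of_ne hl]
        obtain ⟨u, hu, v, hv, huv⟩ := h.adj k l
        refine ⟨u, ⟨hu, fun huK => hl (hKo l ⟨u, huK, v, hv, huv⟩)⟩, v, hv, huv⟩
    · rw [update_of_ne hk]
      exact (h.adj k l).mono subset_rfl (hQ l)
  · intro v
    by_cases hv : v ∈ K
    · right
      exact ⟨j, by rw [update_self]; exact Or.inr hv⟩
    · rcases h.cover v with ⟨k, hk⟩ | ⟨l, hl⟩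
      · left
        refine ⟨k, ?_⟩
        by_cases hki : k = i
        · subst hki; rw [update_self]; exact ⟨hk, hv⟩
        · rw [update_of_ne hki]; exact hk
      · right
        exact ⟨l, hQ l hl⟩

lemma Free.move_from (h : Free H P) {i : Fin 3} {K : Set V} :
    Free H (update P i (P i \ K)) := by
  have hP : ∀ k, update P i (P i \ K) k ⊆ P k := by
    intro k
    by_cases hk : k = i
    · subst hk; rw [update_self]; exact Set.sdiff_subset
    · rw [update_of_ne hk]
  intro k l hkl hx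
  exact h k l hkl (hx.mono (hP k) (hP l))

lemma Free.move_to (h : Free H Q) {j : Fin 3} {K : Set V}
    (hKo : ∀ l, SAdj H K (Q l) → l = j) : Free H (update Q j (Q j ∪ K)) := by
  have h1 : ∀ l, l ≠ j → ¬ SAdj H (Q j ∪ K) (Q l) := by
    intro l hl hx
    rcases sAdj_union_left.1 hx with hx | hx
    · exact h j l hl.symm hx
    · exact hl (hKo l hx)
  intro k l hkl hx
  by_cases hk : k = j
  · subst hk
    rw [update_self, update_of_ne hkl.symm] at hx
    exact h1 l hkl.symm hx
  · rw [update_of_ne hk] at hx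
    by_cases hl : l = j
    · subst hl
      rw [update_self] at hx
      exact h1 k hk hx.symm
    · rw [update_of_ne hl] at hx
      exact h k l hkl hx

/-- sets not adjacent to `K` see the same neighbours after the removal of `K` -/
lemma meets_congr_from {i : Fin 3} {K X : Set V} (hKX : ¬ SAdj H X K) (k : Fin 3) :
    Meets X (nbs H P k) ↔ Meets X (nbs H (update P i (P i \ K)) k) := by
  rw [meets_nbs, meets_nbs]
  by_cases hk : k = i
  · subst hk
    rw [update_self]
    constructor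
    · rintro ⟨u, hu, v, hv, huv⟩
      exact ⟨u, hu, v, ⟨hv, fun hvK => hKX ⟨u, hu, v, hvK, huv⟩⟩, huv⟩
    · intro hx
      exact hx.mono subset_rfl Set.sdiff_subset
  · rw [update_of_ne hk]

/-- sets not adjacent to `K` see the same neighbours after `K` is added -/
lemma meets_congr_to {j : Fin 3} {K X : Set V} (hKX : ¬ SAdj H X K) (k : Fin 3) :
    Meets X (nbs H Q k) ↔ Meets X (nbs H (update Q j (Q j ∪ K)) k) := by
  rw [meets_nbs, meets_nbs]
  by_cases hk : k = j
  · subst hk
    rw [update_self]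
    constructor
    · intro hx
      exact hx.mono subset_rfl Set.subset_union_left
    · rintro ⟨u, hu, v, hv | hv, huv⟩
      · exact ⟨u, hu, v, hv, huv⟩
      · exact absurd ⟨u, hu, v, hv, huv⟩ hKX
  · rw [update_of_ne hk]

/-- (E) persistence -/
lemma K33.persist (h : K33 H P Q) {i j : Fin 3} {K : Set V} (hKs : K ⊆ P i)
    (hK : Con H K) (hK' : Con H (P i \ K)) (hKj : SAdj H K (Q j))
    (hKo : ∀ l, SAdj H K (Q l) → l = j) {l : Fin 3} (hl : ¬ TypeA H (Q l) (nbs H P)) :
    ¬ TypeA H (update Q j (Q j ∪ K) l) (nbs H (update P i (P i \ K))) := by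
  intro hA
  apply hl
  by_cases hlj : l = j
  swap
  · rw [update_of_ne hlj] at hA
    refine hA.congr fun X hX k => (meets_congr_from ?_ k).symm
    intro hx
    exact hlj (hKo l (hx.symm.mono subset_rfl hX))
  subst hlj
  rw [update_self] at hA
  obtain ⟨w, hw, hA⟩ := hA
  have hKQ : Disjoint K (Q l) := (h.disjPQ i l).mono_left hKs
  have hPK : SAdj H (P i \ K) K := (h.conP i).split_adj (Set.sdiff_union_of_subset hKs)
    Set.disjoint_sdiff_left hK'.nonempty hK.nonempty
  have hnew : ∀ k, SAdj H (Q l ∪ K) (update P i (P i \ K) k) := by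
    intro k
    have h1 := (h.move hKs hK hK' hKj hKo).adj k l
    rw [update_self] at h1
    exact h1.symm
  rcases hw with hw | hw
  · refine ⟨w, hw, fun X hX hXc a b ha hb => ?_⟩
    by_contra hab
    -- one of the two indices is different from `i`
    have key : ∀ a b, a ≠ b → SAdj H X (P a) → SAdj H X (P b) → b ≠ i → False := by
      intro a b hab ha hb hbi
      have hb' : SAdj H X (update P i (P i \ K) b) := by rw [update_of_ne hbi]; exact hb
      have hXs : X ⊆ (Q l ∪ K) \ {w} := fun x hx => ⟨Or.inl (hX hx).1, (hX hx).2⟩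
      by_cases hai : a = i
      · subst hai
        by_cases h2 : SAdj H X (P a \ K)
        · refine hab (hA X hXs hXc a b (meets_nbs.2 ?_) (meets_nbs.2 hb'))
          rw [update_self]; exact h2
        · have h3 : SAdj H X K := by
            obtain ⟨u, hu, v, hv, huv⟩ := ha
            by_cases hvK : v ∈ K
            · exact ⟨u, hu, v, hvK, huv⟩
            · exact absurd ⟨u, hu, v, ⟨hv, hvK⟩, huv⟩ h2
          have h4 : X ∪ K ⊆ (Q l ∪ K) \ {w} := by
            rintro x (hx | hx)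
            · exact hXs hx
            · refine ⟨Or.inr hx, ?_⟩
              rintro rfl
              exact Set.disjoint_left.1 hKQ hx hw
          refine hab (hA (X ∪ K) h4 (hXc.union hK h3) a b (meets_nbs.2 ?_) (meets_nbs.2 ?_))
          · rw [update_self]
            exact hPK.symm.mono Set.subset_union_right subset_rfl
          · exact hb'.mono Set.subset_union_left subset_rfl
      · refine hab (hA X hXs hXc a b (meets_nbs.2 ?_) (meets_nbs.2 hb'))
        rw [update_of_ne hai]; exact ha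
    by_cases hbi : b = i
    · refine key b a (Ne.symm hab) (meets_nbs.1 hb) (meets_nbs.1 ha) ?_
      rintro rfl
      exact hab hbi.symm
    · exact key a b hab (meets_nbs.1 ha) (meets_nbs.1 hb) hbi
  · -- `w` in `K`
    exfalso
    have hQs : Q l ⊆ (Q l ∪ K) \ {w} := by
      intro x hx
      refine ⟨Or.inl hx, ?_⟩
      rintro rfl
      exact Set.disjoint_left.1 hKQ hw hx
    have h3 : ∃ a b : Fin 3, a ≠ b ∧ a ≠ i ∧ b ≠ i := by
      have : ∀ i : Fin 3, ∃ a b : Fin 3, a ≠ b ∧ a ≠ i ∧ b ≠ i := by decide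
      exact this i
    obtain ⟨a, b, hab, hai, hbi⟩ := h3
    refine hab (hA (Q l) hQs (h.conQ l) a b (meets_nbs.2 ?_) (meets_nbs.2 ?_))
    · rw [update_of_ne hai]; exact (h.adj a l).symm
    · rw [update_of_ne hbi]; exact (h.adj b l).symm

end move

lemma comp_adj_center {W : Set V} (hW : Con H W) {w v : V} (hw : w ∈ W) (hv : v ∈ W \ {w}) :
    SAdj H (comp H (W \ {w}) v) {w} := by
  have h1 : comp H (W \ {w}) v ≠ W := by
    intro h
    have h2 : w ∈ comp H (W \ {w}) v := (Set.ext_iff.1 h w).2 hw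
    exact (comp_subset _ v h2).2 rfl
  obtain ⟨u, hu, x, hx, hux⟩ := hW.exists_adj ((comp_subset _ v).trans Set.sdiff_subset)
    (comp_con hv).nonempty h1
  have h2 : x = w := by
    by_contra hne
    exact hx.2 (comp_closed hu ⟨hx.1, hne⟩ hux)
  exact ⟨u, hu, x, h2, hux⟩

lemma comp_compl_con {W : Set V} (hW : Con H W) {w v : V} (hw : w ∈ W) :
    Con H (W \ comp H (W \ {w}) v) := by
  have hwK : w ∉ comp H (W \ {w}) v := fun h => (comp_subset _ v h).2 rfl
  have hwS : w ∈ W \ comp H (W \ {w}) v := ⟨hw, hwK⟩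
  refine con_of_star hwS ?_
  rintro x ⟨hxW, hxK⟩
  by_cases hxw : x = w
  · subst hxw
    exact ⟨{x}, Set.singleton_subset_iff.2 ⟨hxW, hxK⟩, con_singleton x, rfl, rfl⟩
  · have hxm : x ∈ W \ {w} := ⟨hxW, hxw⟩
    refine ⟨comp H (W \ {w}) x ∪ {w}, ?_, (comp_con hxm).union (con_singleton w)
      (comp_adj_center hW hw hxm), Or.inr rfl, Or.inl (mem_comp_self hxm)⟩
    rintro y (hy | hy)
    · refine ⟨(comp_subset _ x hy).1, fun hyK => hxK ?_⟩
      have h1 : comp H (W \ {w}) x = comp H (W \ {w}) v :=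
        (comp_eq_of_mem hy).symm.trans (comp_eq_of_mem hyK)
      rw [← h1]
      exact mem_comp_self hxm
    · rw [Set.mem_singleton_iff.1 hy]
      exact ⟨hw, hwK⟩

section process

variable {P Q : Fin 3 → Set V}

/-- a vertex different from the centre which sees `Q j` gives a move -/
lemma K33.center_move (h : K33 H P Q) {i : Fin 3} {w : V} (hw : w ∈ P i)
    (hA : ∀ K ⊆ P i \ {w}, Con H K → AtMost K (nbs H Q)) {v : V} (hv : v ∈ P i) (hvw : v ≠ w)
    {j : Fin 3} (hj : SAdj H {v} (Q j)) :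
    ∃ K ⊆ P i, Con H K ∧ Con H (P i \ K) ∧ SAdj H K (Q j) ∧ ∀ l, SAdj H K (Q l) → l = j := by
  have hvm : v ∈ P i \ {w} := ⟨hv, hvw⟩
  have h1 : SAdj H (comp H (P i \ {w}) v) (Q j) :=
    hj.mono (Set.singleton_subset_iff.2 (mem_comp_self hvm)) subset_rfl
  refine ⟨comp H (P i \ {w}) v, (comp_subset _ v).trans Set.sdiff_subset, comp_con hvm,
    comp_compl_con (h.conP i) hw, h1, ?_⟩
  intro l hl
  exact hA _ (comp_subset _ v) (comp_con hvm) l j (meets_nbs.2 hl) (meets_nbs.2 h1)

/-- a set of type C gives, for every index `j`, a move to `Q j` after which it is of type B -/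
lemma typeC_move {i : Fin 3} (hC : TypeC H (P i) (nbs H Q)) (j : Fin 3) :
    ∃ K ⊆ P i, Con H K ∧ Con H (P i \ K) ∧ SAdj H K (Q j) ∧ (∀ l, SAdj H K (Q l) → l = j) ∧
      TypeB H (P i \ K) (nbs H (update Q j (Q j ∪ K))) := by
  obtain ⟨U, hU, hd, hc, ha, hm, hm'⟩ := hC
  have h3 : ∀ j : Fin 3, ∃ a b : Fin 3, a ≠ b ∧ j ≠ a ∧ j ≠ b ∧ ∀ k, k = j ∨ k = a ∨ k = b := by
    decide
  obtain ⟨a, b, hab, hja, hjb, hall⟩ := h3 j
  have hun : P i \ U j = U a ∪ U b := by
    ext x
    constructor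
    · rintro ⟨hx, hxj⟩
      obtain ⟨k, hk⟩ := (hU x).1 hx
      rcases hall k with rfl | rfl | rfl
      · exact absurd hk hxj
      · exact Or.inl hk
      · exact Or.inr hk
    · rintro (hx | hx)
      · exact ⟨(hU x).2 ⟨a, hx⟩, Set.disjoint_left.1 (hd a j hja.symm) hx⟩
      · exact ⟨(hU x).2 ⟨b, hx⟩, Set.disjoint_left.1 (hd b j hjb.symm) hx⟩
  refine ⟨U j, fun x hx => (hU x).2 ⟨j, hx⟩, hc j, ?_, meets_nbs.1 (hm j), ?_, ?_⟩
  · rw [hun]
    exact (hc a).union (hc b) (ha a b hab)
  · intro l hl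
    exact hm' j l (meets_nbs.2 hl)
  · refine ⟨U a, U b, hun.symm, hd a b hab, hc a, hc b, j, a, b, hja, hjb, hab, ?_, ?_, ?_, ?_⟩
    · rw [meets_nbs, update_self]
      exact (ha a j hja.symm).mono subset_rfl Set.subset_union_right
    · rw [meets_nbs, update_of_ne hja.symm]
      exact meets_nbs.1 (hm a)
    · rw [meets_nbs, update_self]
      exact (ha b j hjb.symm).mono subset_rfl Set.subset_union_right
    · rw [meets_nbs, update_of_ne hjb.symm]
      exact meets_nbs.1 (hm b)

/-- the size of a family -/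
noncomputable def sz (P : Fin 3 → Set V) : ℕ := ∑ i, (P i).ncard

lemma sz_update [Finite V] {i : Fin 3} {K : Set V} (hKs : K ⊆ P i) (hK : K.Nonempty) :
    sz (update P i (P i \ K)) < sz P := by
  unfold sz
  apply Finset.sum_lt_sum
  · intro k _
    by_cases hk : k = i
    · subst hk
      rw [update_self]
      exact Set.ncard_le_ncard Set.sdiff_subset (Set.toFinite _)
    · rw [update_of_ne hk]
  · refine ⟨i, Finset.mem_univ i, ?_⟩
    rw [update_self]
    apply Set.ncard_lt_ncard _ (Set.toFinite _)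
    obtain ⟨x, hx⟩ := hK
    refine ⟨Set.sdiff_subset, fun hsub => (hsub (hKs hx)).2 hx⟩

/-- If all `Q j` have centres, then there is a hub or a move from `Q` to `P`. -/
lemma K33.hub_or_move (h : K33 H P Q) (hP : Free H P)
    (hA : ∀ j, TypeA H (Q j) (nbs H P)) :
    (∃ w, Hub H w P) ∨ ∃ j i, ∃ K ⊆ Q j, Con H K ∧ Con H (Q j \ K) ∧ SAdj H K (P i) ∧
      ∀ l, SAdj H K (P l) → l = i := by
  choose w hw hA using hA
  by_cases hm : ∃ j, ∃ v ∈ Q j, v ≠ w j ∧ ∃ i, SAdj H {v} (P i)
  · right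
    obtain ⟨j, v, hv, hvw, i, hi⟩ := hm
    exact ⟨j, i, h.symm.center_move (hw j) (hA j) hv hvw hi⟩
  · left
    push Not at hm
    refine ⟨w, ?_, h.conP, h.disjP, ?_, ?_, ?_⟩
    · intro a b hab
      by_contra hne
      exact Set.disjoint_left.1 (h.disjQ a b hne) (hw a) (hab ▸ hw b)
    · intro i j hj
      exact Set.disjoint_left.1 (h.disjPQ i j) hj (hw j)
    · intro i u hu v huv
      rcases h.cover v with ⟨k, hk⟩ | ⟨j, hj⟩
      · left
        by_cases hki : i = k
        · rw [hki]; exact hk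
        · exact absurd ⟨u, hu, v, hk, huv⟩ (hP i k hki)
      · right
        refine ⟨j, ?_⟩
        by_contra hne
        exact hm j v hj hne i ⟨v, rfl, u, hu, huv.symm⟩
    · intro i j
      obtain ⟨u, hu, v, hv, huv⟩ := h.adj i j
      have : v = w j := by
        by_contra hne
        exact hm j v hv hne i ⟨v, rfl, u, hu, huv.symm⟩
      exact ⟨u, hu, this ▸ huv⟩

lemma K33.tri [Finite V] (h : K33 H P Q) (j : Fin 3) : TypeA H (Q j) (nbs H P) ∨
    TypeB H (Q j) (nbs H P) ∨ TypeC H (Q j) (nbs H P) :=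
  trichotomy (h.conQ j) fun i => meets_nbs.2 (h.adj i j).symm

/-- Stage 1. -/
theorem stage1 [Finite V] (h5 : ¬ K5M H) (n : ℕ) : ∀ P Q : Fin 3 → Set V, K33 H P Q → Free H P →
    sz Q = n → (∃ w P, Hub H w P) ∨ ∃ P Q, K33 H P Q ∧ Free H P ∧ Free H Q ∧
      ∃ j, ¬ TypeA H (Q j) (nbs H P) := by
  induction n using Nat.strong_induction_on with
  | _ n ih =>
  intro P Q h hP hn
  by_cases hB : ∃ j, TypeB H (Q j) (nbs H P)
  · obtain ⟨j, hj⟩ := hB
    exact Or.inr ⟨P, Q, h, hP, h.n1 h5 hj, j, hj.not_typeA⟩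
  by_cases hC : ∃ j, TypeC H (Q j) (nbs H P)
  · obtain ⟨j, hj⟩ := hC
    obtain ⟨K, hKs, hK, hK', hKi, hKo, hB'⟩ := typeC_move hj 0
    have h' := (h.symm.move hKs hK hK' hKi hKo).symm
    have hB2 : TypeB H (update Q j (Q j \ K) j) (nbs H (update P 0 (P 0 ∪ K))) := by
      rw [update_self]; exact hB'
    exact Or.inr ⟨_, _, h', hP.move_to hKo, h'.n1 h5 hB2, j, hB2.not_typeA⟩
  push Not at hB hC
  have hA : ∀ j, TypeA H (Q j) (nbs H P) := fun j =>
    (h.tri j).resolve_right (fun hx => hx.elim (hB j) (hC j))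
  rcases h.hub_or_move hP hA with ⟨w, hw⟩ | ⟨j, i, K, hKs, hK, hK', hKi, hKo⟩
  · exact Or.inl ⟨w, P, hw⟩
  · have h' := (h.symm.move hKs hK hK' hKi hKo).symm
    exact ih _ (hn ▸ sz_update hKs hK.nonempty) _ _ h' (hP.move_to hKo) rfl

/-- The last step. -/
theorem final_step (h : K33 H P Q) {i j : Fin 3}
    (hQ : TypeB H (Q j) (nbs H P) ∨ TypeC H (Q j) (nbs H P))
    (hP : TypeB H (P i) (nbs H Q) ∨ TypeC H (P i) (nbs H Q)) : K5M H ∨ V8M H := by
  have hex : ∀ i : Fin 3, ∃ l, l ≠ i := by decide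
  -- first case: `Q j` of type B
  have key : ∀ {P Q : Fin 3 → Set V} (_ : K33 H P Q) {i j : Fin 3},
      TypeB H (Q j) (nbs H P) → (TypeB H (P i) (nbs H Q) ∨ TypeC H (P i) (nbs H Q)) →
      K5M H ∨ V8M H := by
    intro P Q h i j hQ hP
    rcases hP with hP | hP
    · exact h.n2 hQ hP
    · obtain ⟨l, hl⟩ := hex j
      obtain ⟨K, hKs, hK, hK', hKl, hKo, hB'⟩ := typeC_move hP l
      refine (h.move hKs hK hK' hKl hKo).n2 (i := i) (j := j) ?_ ?_
      · rw [update_of_ne hl.symm]
        refine hQ.congr fun X hX k => meets_congr_from (fun hx => ?_) k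
        exact hl (hKo j (hx.symm.mono subset_rfl hX)).symm
      · rw [update_self]; exact hB'
  rcases hQ with hQ | hQ
  · exact key h hQ hP
  · obtain ⟨l, hl⟩ := hex i
    obtain ⟨K, hKs, hK, hK', hKl, hKo, hB'⟩ := typeC_move hQ l
    refine key (h.symm.move hKs hK hK' hKl hKo).symm (i := i) (j := j) ?_ ?_
    · rw [update_self]; exact hB'
    · rw [update_of_ne hl.symm]
      have hcg : ∀ X ⊆ P i, ∀ k, Meets X (nbs H Q k) ↔
          Meets X (nbs H (update Q j (Q j \ K)) k) := by
        intro X hX k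
        exact meets_congr_from (fun hx => hl (hKo i (hx.symm.mono subset_rfl hX)).symm) k
      rcases hP with hP | hP
      · exact Or.inl (hP.congr hcg)
      · exact Or.inr (hP.congr hcg)

/-- Stage 2. -/
theorem stage2 [Finite V] (h5 : ¬ K5M H) (h8 : ¬ V8M H) (n : ℕ) : ∀ P Q : Fin 3 → Set V,
    K33 H P Q → Free H P → Free H Q → (∃ j, ¬ TypeA H (Q j) (nbs H P)) → sz P = n →
    ∃ w P, Hub H w P := by
  induction n using Nat.strong_induction_on with
  | _ n ih =>
  intro P Q h hP hQ hj hn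
  by_cases hA : ∀ i, TypeA H (P i) (nbs H Q)
  · rcases h.symm.hub_or_move hQ hA with ⟨w, hw⟩ | ⟨i, j, K, hKs, hK, hK', hKj, hKo⟩
    · exact ⟨w, Q, hw⟩
    · obtain ⟨l, hl⟩ := hj
      exact ih _ (hn ▸ sz_update hKs hK.nonempty) _ _ (h.move hKs hK hK' hKj hKo) hP.move_from
        (hQ.move_to hKo) ⟨l, h.persist hKs hK hK' hKj hKo hl⟩ rfl
  · exfalso
    push Not at hA
    obtain ⟨i, hi⟩ := hA
    obtain ⟨j, hj⟩ := hj
    rcases final_step h ((h.tri j).resolve_left hj) ((h.symm.tri i).resolve_left hi) with hx | hx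
    · exact h5 hx
    · exact h8 hx

/-- **Lemma K.** -/
theorem lemmaK [Finite V] (h5 : ¬ K5M H) (h8 : ¬ V8M H) (h : K33 H P Q) :
    ∃ w P, Hub H w P := by
  have key : ∀ P Q : Fin 3 → Set V, K33 H P Q → Free H P → ∃ w P, Hub H w P := by
    intro P Q h hP
    rcases stage1 h5 _ P Q h hP rfl with hx | ⟨P', Q', h', hP', hQ', hj⟩
    · exact hx
    · exact stage2 h5 h8 _ P' Q' h' hP' hQ' hj rfl
  by_cases hP : Free H P
  · exact key P Q h hP
  · refine key Q P h.symm ?_
    unfold Free at hP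
    push Not at hP
    obtain ⟨i, m, him, hx⟩ := hP
    intro j k hjk hy
    exact h5 (h.f1 him hx hjk hy)

end process

end Helper19.Wag
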