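import Pool.Agent.Helper19.Wag.TypeT

/-!
# Models with a list of adjacencies, and a checker for minors of minors
-/

namespace Helper19.Wag

variable {V : Type*} {H : SimpleGraph V}

/-- A model: disjoint connected sets with the adjacencies in the list `L`. -/
structure PM (H : SimpleGraph V) {n : ℕ} (L : List (Fin n × Fin n)) (f : Fin n → Set V) :
    Prop where
  con : ∀ i, Con H (f i)
  disj : ∀ i j, i ≠ j → Disjoint (f i) (f j)
  adj : ∀ p ∈ L, SAdj H (f p.1) (f p.2)

/-- the union of some of the sets -/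
def gs {n : ℕ} (f : Fin n → Set V) (l : List (Fin n)) : Set V := {x | ∃ a ∈ l, x ∈ f a}

/-- adjacency given by the list -/
def la {n : ℕ} (L : List (Fin n × Fin n)) (a b : Fin n) : Bool := (a, b) ∈ L || (b, a) ∈ L

/-- a list of indices is connected: every element is adjacent to a later one -/
def lc {n : ℕ} (L : List (Fin n × Fin n)) : List (Fin n) → Bool
  | [] => false
  | [_] => true
  | a :: b :: l => (b :: l).any (fun c => la L a c) && lc L (b :: l)

/-- the checker -/
def chk {n m : ℕ} (L : List (Fin n × Fin n)) (g : Fin m → List (Fin n))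
    (L' : List (Fin m × Fin m)) : Bool :=
  decide (∀ i, lc L (g i) = true) && decide (∀ i j, i ≠ j → ∀ a ∈ g i, a ∉ g j) &&
    L'.all (fun p => (g p.1).any fun a => (g p.2).any fun b => la L a b)

lemma PM.la_adj {n : ℕ} {L : List (Fin n × Fin n)} {f : Fin n → Set V} (h : PM H L f)
    {a b : Fin n} (hab : la L a b = true) : SAdj H (f a) (f b) := by
  unfold la at hab
  rw [Bool.or_eq_true, decide_eq_true_iff, decide_eq_true_iff] at hab
  rcases hab with hab | hab
  · exact h.adj _ hab
  · exact (h.adj _ hab).symm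

lemma gs_cons {n : ℕ} (f : Fin n → Set V) (a : Fin n) (l : List (Fin n)) :
    gs f (a :: l) = f a ∪ gs f l := by
  ext x
  unfold gs
  simp

lemma PM.con_gs {n : ℕ} {L : List (Fin n × Fin n)} {f : Fin n → Set V} (h : PM H L f)
    (l : List (Fin n)) (hl : lc L l = true) : Con H (gs f l) := by
  induction l with
  | nil => simp [lc] at hl
  | cons a l ih =>
    cases l with
    | nil =>
      have : gs f [a] = f a := by ext x; unfold gs; simp
      rw [this]
      exact h.con a
    | cons b l =>
      rw [lc, Bool.and_eq_true] at hl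
      rw [gs_cons]
      refine (h.con a).union (ih hl.2) ?_
      rw [List.any_eq_true] at hl
      obtain ⟨c, hc, hac⟩ := hl.1
      refine (h.la_adj hac).mono subset_rfl ?_
      intro x hx
      exact ⟨c, hc, hx⟩

theorem PM.comp {n m : ℕ} {L : List (Fin n × Fin n)} {f : Fin n → Set V} (h : PM H L f)
    (g : Fin m → List (Fin n)) (L' : List (Fin m × Fin m)) (hc : chk L g L' = true) :
    PM H L' (fun i => gs f (g i)) := by
  unfold chk at hc
  rw [Bool.and_eq_true, Bool.and_eq_true, decide_eq_true_iff, decide_eq_true_iff,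
    List.all_eq_true] at hc
  obtain ⟨⟨h1, h2⟩, h3⟩ := hc
  refine ⟨fun i => h.con_gs _ (h1 i), ?_, ?_⟩
  · intro i j hij
    rw [Set.disjoint_left]
    rintro x ⟨a, ha, hxa⟩ ⟨b, hb, hxb⟩
    have hab : a ≠ b := by
      rintro rfl
      exact h2 i j hij a ha hb
    exact Set.disjoint_left.1 (h.disj a b hab) hxa hxb
  · intro p hp
    have := h3 p hp
    rw [List.any_eq_true] at this
    obtain ⟨a, ha, hb⟩ := this
    rw [List.any_eq_true] at hb
    obtain ⟨b, hb, hab⟩ := hb
    exact (h.la_adj hab).mono (fun x hx => ⟨a, ha, hx⟩) (fun x hx => ⟨b, hb, hx⟩)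

/-- the edges of `K5` -/
def L5 : List (Fin 5 × Fin 5) :=
  [(0, 1), (0, 2), (0, 3), (0, 4), (1, 2), (1, 3), (1, 4), (2, 3), (2, 4), (3, 4)]

/-- the edges of `V8` -/
def L8 : List (Fin 8 × Fin 8) :=
  [(0, 1), (1, 2), (2, 3), (3, 4), (4, 5), (5, 6), (6, 7), (7, 0), (0, 4), (1, 5), (2, 6), (3, 7)]

/-- a `K5` model, as in the frozen statement -/
def K5M (H : SimpleGraph V) : Prop :=
  ∃ f : Fin 5 → Set V, (∀ i, (H.induce (f i)).Connected) ∧
    (∀ i j, i ≠ j → Disjoint (f i) (f j)) ∧
    (∀ i j, i ≠ j → ∃ u ∈ f i, ∃ v ∈ f j, H.Adj u v)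

/-- a `V8` model -/
def V8M (H : SimpleGraph V) : Prop := ∃ f : Fin 8 → Set V, PM H L8 f

lemma PM.k5 {f : Fin 5 → Set V} (h : PM H L5 f) : K5M H := by
  refine ⟨f, h.con, h.disj, ?_⟩
  intro i j hij
  have h1 : ∀ i j : Fin 5, i ≠ j → la L5 i j = true := by decide
  exact h.la_adj (h1 i j hij)

/-- disjointness of a family from the disjointness of larger sets -/
lemma disj_of_parent {ι κ : Type*} {big : κ → Set V}
    (hbig : ∀ k l, k ≠ l → Disjoint (big k) (big l)) (par : ι → κ) {f : ι → Set V}
    (hsub : ∀ a, f a ⊆ big (par a))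
    (hsame : ∀ a b, a ≠ b → par a = par b → Disjoint (f a) (f b)) :
    ∀ a b, a ≠ b → Disjoint (f a) (f b) := by
  intro a b hab
  by_cases h : par a = par b
  · exact hsame a b hab h
  · exact (hbig _ _ h).mono (hsub a) (hsub b)

end Helper19.Wag
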