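import Pool.Agent.Helper19.Wag.Basic

/-!
# The trichotomy for a connected set with three attachment sets
-/

namespace Helper19.Wag

variable {V : Type*} {H : SimpleGraph V}

/-- The set meets at most one of the sets `N i`. -/
def AtMost (K : Set V) (N : Fin 3 → Set V) : Prop := ∀ i j, Meets K (N i) → Meets K (N j) → i = j

/-- Centre: no connected set missing `w` meets two of the sets `N i`. -/
def TypeA (H : SimpleGraph V) (W : Set V) (N : Fin 3 → Set V) : Prop :=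
  ∃ w ∈ W, ∀ K ⊆ W \ {w}, Con H K → AtMost K N

/-- Doubled split. -/
def TypeB (H : SimpleGraph V) (W : Set V) (N : Fin 3 → Set V) : Prop :=
  ∃ U U' : Set V, U ∪ U' = W ∧ Disjoint U U' ∧ Con H U ∧ Con H U' ∧
    ∃ a b c : Fin 3, a ≠ b ∧ a ≠ c ∧ b ≠ c ∧
      Meets U (N a) ∧ Meets U (N b) ∧ Meets U' (N a) ∧ Meets U' (N c)

/-- Triangle. -/
def TypeC (H : SimpleGraph V) (W : Set V) (N : Fin 3 → Set V) : Prop :=
  ∃ U : Fin 3 → Set V, (∀ x, x ∈ W ↔ ∃ i, x ∈ U i) ∧ (∀ i j, i ≠ j → Disjoint (U i) (U j)) ∧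
    (∀ i, Con H (U i)) ∧ (∀ i j, i ≠ j → SAdj H (U i) (U j)) ∧
    (∀ i, Meets (U i) (N i)) ∧ ∀ i j, Meets (U i) (N j) → j = i

lemma fin3_split_aux : ∀ p0 p1 p2 q0 q1 q2 : Bool,
    (∀ i, (![p0, p1, p2] : Fin 3 → Bool) i = true ∨ (![q0, q1, q2] : Fin 3 → Bool) i = true) →
    (∃ i j, i ≠ j ∧ (![p0, p1, p2] : Fin 3 → Bool) i = true ∧
      (![p0, p1, p2] : Fin 3 → Bool) j = true) →
    (∃ i j, i ≠ j ∧ (![q0, q1, q2] : Fin 3 → Bool) i = true ∧
      (![q0, q1, q2] : Fin 3 → Bool) j = true) →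
    ∃ a b c : Fin 3, a ≠ b ∧ a ≠ c ∧ b ≠ c ∧ (![p0, p1, p2] : Fin 3 → Bool) a = true ∧
      (![p0, p1, p2] : Fin 3 → Bool) b = true ∧ (![q0, q1, q2] : Fin 3 → Bool) a = true ∧
      (![q0, q1, q2] : Fin 3 → Bool) c = true := by
  decide

lemma fin3_split (P Q : Fin 3 → Bool) (h : ∀ i, P i = true ∨ Q i = true)
    (h1 : ∃ i j, i ≠ j ∧ P i = true ∧ P j = true) (h2 : ∃ i j, i ≠ j ∧ Q i = true ∧ Q j = true) :
    ∃ a b c : Fin 3, a ≠ b ∧ a ≠ c ∧ b ≠ c ∧ P a = true ∧ P b = true ∧ Q a = true ∧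
      Q c = true := by
  have hP : P = ![P 0, P 1, P 2] := by ext i; fin_cases i <;> rfl
  have hQ : Q = ![Q 0, Q 1, Q 2] := by ext i; fin_cases i <;> rfl
  rw [hP] at h h1 ⊢
  rw [hQ] at h h2 ⊢
  exact fin3_split_aux _ _ _ _ _ _ h h1 h2

lemma typeB_of_not_atMost {W U U' : Set V} {N : Fin 3 → Set V} (hN : ∀ i, Meets W (N i))
    (hU : U ∪ U' = W) (hd : Disjoint U U') (h1 : Con H U) (h2 : Con H U')
    (h3 : ¬ AtMost U N) (h4 : ¬ AtMost U' N) : TypeB H W N := by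
  classical
  refine ⟨U, U', hU, hd, h1, h2, ?_⟩
  unfold AtMost at h3 h4
  push Not at h3 h4
  obtain ⟨i, j, hi, hj, hij⟩ := h3
  obtain ⟨i', j', hi', hj', hij'⟩ := h4
  obtain ⟨a, b, c, hab, hac, hbc, ha, hb, ha', hc⟩ := fin3_split
    (fun i => decide (Meets U (N i))) (fun i => decide (Meets U' (N i)))
    (by
      intro i
      have := hN i
      rw [← hU, meets_union] at this
      simpa using this)
    ⟨i, j, hij, by simpa using hi, by simpa using hj⟩
    ⟨i', j', hij', by simpa using hi', by simpa using hj'⟩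
  exact ⟨a, b, c, hab, hac, hbc, by simpa using ha, by simpa using hb, by simpa using ha',
    by simpa using hc⟩

/-- A set of type B is not of type A. -/
lemma TypeB.not_typeA {W : Set V} {N : Fin 3 → Set V} (hB : TypeB H W N) : ¬ TypeA H W N := by
  rintro ⟨w, hw, hA⟩
  obtain ⟨U, U', hU, hd, h1, h2, a, b, c, hab, hac, hbc, ha, hb, ha', hc⟩ := hB
  rw [← hU] at hw
  rcases hw with hw | hw
  · apply hac
    refine hA U' ?_ h2 a c ha' hc
    intro x hx
    refine ⟨hU ▸ Or.inr hx, ?_⟩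
    rintro rfl
    exact Set.disjoint_left.1 hd hw hx
  · apply hab
    refine hA U ?_ h1 a b ha hb
    intro x hx
    refine ⟨hU ▸ Or.inl hx, ?_⟩
    rintro rfl
    exact Set.disjoint_left.1 hd hx hw

lemma fin3_third : ∀ a b : Fin 3, a ≠ b → ∃ c, c ≠ a ∧ c ≠ b ∧ ∀ k, k = a ∨ k = b ∨ k = c := by
  decide

/-- **Lemma T.** -/
theorem trichotomy [Finite V] {W : Set V} {N : Fin 3 → Set V} (hW : Con H W)
    (hN : ∀ i, Meets W (N i)) : TypeA H W N ∨ TypeB H W N ∨ TypeC H W N := by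
  classical
  by_cases hB : TypeB H W N
  · exact Or.inr (Or.inl hB)
  have key : ∀ Y ⊆ W, Con H Y → Con H (W \ Y) → AtMost Y N ∨ AtMost (W \ Y) N := by
    intro Y hY h1 h2
    by_contra hcon
    push Not at hcon
    exact hB (typeB_of_not_atMost hN (Set.union_sdiff_cancel hY) Set.disjoint_sdiff_right h1 h2
      hcon.1 hcon.2)
  by_cases hA : TypeA H W N
  · exact Or.inl hA
  refine Or.inr (Or.inr ?_)
  by_cases hnt : W.Nontrivial
  swap
  · exfalso
    apply hA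
    obtain ⟨w, hw⟩ := hW.nonempty
    refine ⟨w, hw, fun K hK hKc => ?_⟩
    exfalso
    obtain ⟨x, hx⟩ := hKc.nonempty
    exact hnt ⟨x, (hK hx).1, w, hw, (hK hx).2⟩
  set F : Set (Set V) := {Y | Y ⊆ W ∧ Con H Y ∧ Con H (W \ Y) ∧ AtMost Y N} with hF
  have hFne : F.Nonempty := by
    obtain ⟨v, hv, hv2⟩ := hW.exists_diff hnt
    have hvW : {v} ⊆ W := Set.singleton_subset_iff.2 hv
    rcases key {v} hvW (con_singleton v) hv2 with h | h
    · exact ⟨{v}, hvW, con_singleton v, hv2, h⟩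
    · refine ⟨W \ {v}, Set.sdiff_subset, hv2, ?_, h⟩
      rw [Set.sdiff_sdiff_cancel_left hvW]
      exact con_singleton v
  obtain ⟨Y, hYF, hmax⟩ := Set.Finite.exists_maximal (Set.toFinite F) hFne
  obtain ⟨hYW, hYc, hYc', hYa⟩ := hYF
  have hYne : Y ≠ W := by
    rintro rfl
    obtain ⟨x, hx⟩ := hYc'.nonempty
    exact hx.2 hx.1
  obtain ⟨y0, hy0, z, hz, hyz⟩ := hW.exists_adj hYW hYc.nonempty hYne
  set R : Set V := (W \ Y) \ {z} with hR
  have hRW : R ⊆ W := fun x hx => hx.1.1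
  -- the components of `R`
  have hZz : ∀ v ∈ R, SAdj H (comp H R v) {z} := by
    intro v hv
    have h1 : comp H R v ≠ W \ Y := by
      intro h
      have h2 : z ∈ comp H R v := h ▸ hz
      exact (comp_subset R v h2).2 rfl
    obtain ⟨u', hu', v', hv', huv'⟩ := hYc'.exists_adj
      ((comp_subset R v).trans Set.sdiff_subset) (comp_con hv).nonempty h1
    have h2 : v' = z := by
      by_contra hne
      exact hv'.2 (comp_closed hu' ⟨hv'.1, hne⟩ huv')
    exact ⟨u', hu', v', h2, huv'⟩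
  have hYz : SAdj H Y {z} := ⟨y0, hy0, z, rfl, hyz⟩
  -- pieces
  set Pc : Set (Set V) := {P | P = Y ∨ ∃ v ∈ R, P = comp H R v} with hPc
  have hPcW : ∀ P ∈ Pc, P ⊆ W \ {z} := by
    rintro P (rfl | ⟨v, hv, rfl⟩)
    · intro x hx
      refine ⟨hYW hx, ?_⟩
      rintro rfl
      exact hz.2 hx
    · intro x hx
      have h1 := comp_subset R v hx
      exact ⟨h1.1.1, h1.2⟩
  have hPcc : ∀ P ∈ Pc, Con H P := by
    rintro P (rfl | ⟨v, hv, rfl⟩)
    · exact hYc
    · exact comp_con hv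
  have hPcz : ∀ P ∈ Pc, SAdj H P {z} := by
    rintro P (rfl | ⟨v, hv, rfl⟩)
    · exact hYz
    · exact hZz v hv
  have hPce : ∀ x ∈ W \ {z}, ∃ P ∈ Pc, x ∈ P := by
    intro x hx
    by_cases hxY : x ∈ Y
    · exact ⟨Y, Or.inl rfl, hxY⟩
    · have hxR : x ∈ R := ⟨⟨hx.1, hxY⟩, hx.2⟩
      exact ⟨comp H R x, Or.inr ⟨x, hxR, rfl⟩, mem_comp_self hxR⟩
  have hPcd : ∀ P ∈ Pc, ∀ P' ∈ Pc, (P ∩ P').Nonempty → P = P' := by
    rintro P (rfl | ⟨v, hv, rfl⟩) P' (rfl | ⟨v', hv', rfl⟩) ⟨x, hx, hx'⟩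
    · rfl
    · exact absurd hx (comp_subset R v' hx').1.2
    · exact absurd hx' (comp_subset R v hx).1.2
    · rw [← comp_eq_of_mem hx, ← comp_eq_of_mem hx']
  -- the complement of a union of pieces is connected
  have hstar : ∀ A : Set V, z ∉ A → (∀ P ∈ Pc, (P ∩ A).Nonempty → P ⊆ A) → Con H (W \ A) := by
    intro A hzA hA
    refine con_of_star (S := W \ A) (z := z) ⟨hz.1, hzA⟩ ?_
    rintro x ⟨hxW, hxA⟩
    by_cases hxz : x = z
    · subst hxz
      exact ⟨{x}, Set.singleton_subset_iff.2 ⟨hxW, hxA⟩, con_singleton x, rfl, rfl⟩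
    · obtain ⟨P, hP, hxP⟩ := hPce x ⟨hxW, hxz⟩
      refine ⟨P ∪ {z}, ?_, (hPcc P hP).union (con_singleton z) (hPcz P hP), Or.inr rfl,
        Or.inl hxP⟩
      rintro y (hy | hy)
      · have hsub := hA P hP
        exact ⟨(hPcW P hP hy).1, fun hyA => hxA (hsub ⟨y, hy, hyA⟩ hxP)⟩
      · rw [Set.mem_singleton_iff.1 hy]
        exact ⟨hz.1, hzA⟩
  have hPca : ∀ P ∈ Pc, AtMost P N := by
    intro P hP
    rcases hP with rfl | ⟨v, hv, rfl⟩
    · exact hYa
    · have hP : comp H R v ∈ Pc := Or.inr ⟨v, hv, rfl⟩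
      have hPW : comp H R v ⊆ W := fun x hx => (hPcW _ hP hx).1
      have h1 : Con H (W \ comp H R v) := by
        apply hstar
        · intro h
          exact (comp_subset R v h).2 rfl
        · intro P' hP' hne
          rw [hPcd P' hP' _ hP hne]
      rcases key _ hPW (comp_con hv) h1 with h | h
      · exact h
      · exfalso
        have h2 : W \ comp H R v ∈ F := by
          refine ⟨Set.sdiff_subset, h1, ?_, h⟩
          rw [Set.sdiff_sdiff_cancel_left hPW]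
          exact comp_con hv
        have h3 : Y ⊆ W \ comp H R v := by
          intro x hx
          exact ⟨hYW hx, fun hx' => (comp_subset R v hx').1.2 hx⟩
        have h4 := hmax h2 h3
        exact hz.2 (h4 ⟨hz.1, fun h => (comp_subset R v h).2 rfl⟩)
  -- now use that `z` is not a centre
  have hnz : ∃ K ⊆ W \ {z}, Con H K ∧ ¬ AtMost K N := by
    by_contra hcon
    push Not at hcon
    exact hA ⟨z, hz.1, hcon⟩
  obtain ⟨K, hKW, hKc, hKa⟩ := hnz
  unfold AtMost at hKa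
  push Not at hKa
  obtain ⟨a, j, hKa, hKj, haj⟩ := hKa
  obtain ⟨x0, hx0K, hx0N⟩ := hKa
  set L : Set V := ⋃₀ {P | P ∈ Pc ∧ ∀ k, Meets P (N k) → k = a} with hL
  obtain ⟨P0, hP0, hx0P⟩ := hPce x0 (hKW hx0K)
  have hP0L : P0 ⊆ L := by
    intro x hx
    exact ⟨P0, ⟨hP0, fun k hk => hPca P0 hP0 k a hk ⟨x0, hx0P, hx0N⟩⟩, hx⟩
  have hx0L : x0 ∈ L := hP0L hx0P
  set X : Set V := comp H L x0 with hX
  have hXc : Con H X := comp_con hx0L
  have hXL : X ⊆ L := comp_subset L x0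
  have hLW : L ⊆ W \ {z} := by
    rintro x ⟨P, ⟨hP, -⟩, hx⟩
    exact hPcW P hP hx
  have hXpc : ∀ P ∈ Pc, (P ∩ X).Nonempty → P ⊆ X := by
    rintro P hP ⟨x, hxP, hxX⟩
    obtain ⟨P', ⟨hP', hk⟩, hxP'⟩ := hXL hxX
    have h1 : P = P' := hPcd P hP P' hP' ⟨x, hxP, hxP'⟩
    subst h1
    have h2 : P ⊆ L := fun y hy => ⟨P, ⟨hP, hk⟩, hy⟩
    have h3 : comp H L x = X := comp_eq_of_mem hxX
    rw [← h3]
    exact subset_comp h2 (hPcc P hP) hxP
  have hXN : ∀ k, Meets X (N k) → k = a := by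
    rintro k ⟨x, hx, hxN⟩
    obtain ⟨P', ⟨hP', hk⟩, hxP'⟩ := hXL hx
    exact hk k ⟨x, hxP', hxN⟩
  have hKX : K ∩ X ≠ K := by
    intro h
    obtain ⟨y, hyK, hyN⟩ := hKj
    rw [← h] at hyK
    exact haj (hXN j ⟨y, hyK.2, hyN⟩).symm
  obtain ⟨u, hu, v, hv, huv⟩ := hKc.exists_adj Set.inter_subset_left
    ⟨x0, hx0K, mem_comp_self hx0L⟩ hKX
  have hvX : v ∉ X := fun h => hv.2 ⟨hv.1, h⟩
  obtain ⟨Q, hQ, hvQ⟩ := hPce v (hKW hv.1)
  have hQb : ∃ b, Meets Q (N b) ∧ b ≠ a := by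
    by_contra hcon
    push Not at hcon
    have h1 : v ∈ L := ⟨Q, ⟨hQ, fun k hk => hcon k hk⟩, hvQ⟩
    exact hvX (comp_closed hu.2 h1 huv)
  obtain ⟨b, hQb, hba⟩ := hQb
  have hQN : ∀ k, Meets Q (N k) → k = b := fun k hk => hPca Q hQ k b hk hQb
  have hQX : Disjoint X Q := by
    rw [Set.disjoint_left]
    intro x hx hxQ
    exact hvX (hXpc Q hQ ⟨x, hxQ, hx⟩ hvQ)
  obtain ⟨c, hca, hcb, habc⟩ := fin3_third a b (Ne.symm hba)
  set Z : Set V := W \ (X ∪ Q) with hZ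
  have hzX : z ∉ X := fun h => (hLW (hXL h)).2 rfl
  have hzQ : z ∉ Q := fun h => (hPcW Q hQ h).2 rfl
  have hXW : X ⊆ W := fun x hx => (hLW (hXL hx)).1
  have hQW : Q ⊆ W := fun x hx => (hPcW Q hQ hx).1
  have hZc : Con H Z := by
    apply hstar
    · rintro (h | h)
      · exact hzX h
      · exact hzQ h
    · rintro P hP ⟨x, hxP, hx | hx⟩
      · exact (hXpc P hP ⟨x, hxP, hx⟩).trans Set.subset_union_left
      · rw [hPcd P hP Q hQ ⟨x, hxP, hx⟩]
        exact Set.subset_union_right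
  have hzZ : z ∈ Z := ⟨hz.1, fun h => h.elim hzX hzQ⟩
  have hXZ : SAdj H X Z := by
    have h1 : P0 ⊆ X := hXpc P0 hP0 ⟨x0, hx0P, mem_comp_self hx0L⟩
    exact (hPcz P0 hP0).mono h1 (Set.singleton_subset_iff.2 hzZ)
  have hQZ : SAdj H Q Z := (hPcz Q hQ).mono subset_rfl (Set.singleton_subset_iff.2 hzZ)
  have hXQ : SAdj H X Q := ⟨u, hu.2, v, hvQ, huv⟩
  have hXa : Meets X (N a) := ⟨x0, mem_comp_self hx0L, hx0N⟩
  have hZm : Meets Z (N c) := by
    obtain ⟨x, hxW, hxN⟩ := hN c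
    refine ⟨x, ⟨hxW, ?_⟩, hxN⟩
    rintro (h | h)
    · exact hca (hXN c ⟨x, h, hxN⟩)
    · exact hcb (hQN c ⟨x, h, hxN⟩)
  have hZN : ∀ k, Meets Z (N k) → k = c := by
    intro k hk
    by_contra hkc
    apply hB
    refine typeB_of_not_atMost hN (U := X ∪ Q) (U' := Z)
      (Set.union_sdiff_cancel (Set.union_subset hXW hQW)) Set.disjoint_sdiff_right
      (hXc.union (hPcc Q hQ) hXQ) hZc ?_ ?_
    · intro h
      exact hba (h b a (meets_union.2 (Or.inr hQb)) (meets_union.2 (Or.inl hXa)))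
    · intro h
      exact hkc (h k c hk hZm)
  have hdXZ : Disjoint X Z := by
    rw [Set.disjoint_left]
    intro x hx hxZ
    exact hxZ.2 (Or.inl hx)
  have hdQZ : Disjoint Q Z := by
    rw [Set.disjoint_left]
    intro x hx hxZ
    exact hxZ.2 (Or.inr hx)
  set U : Fin 3 → Set V := fun k => if k = a then X else if k = b then Q else Z with hU
  have hUa : U a = X := by simp [hU]
  have hUb : U b = Q := by simp [hU, hba]
  have hUc : U c = Z := by simp [hU, hca, hcb]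
  refine ⟨U, ?_, ?_, ?_, ?_, ?_, ?_⟩
  · intro x
    constructor
    · intro hx
      by_cases h1 : x ∈ X
      · exact ⟨a, hUa ▸ h1⟩
      by_cases h2 : x ∈ Q
      · exact ⟨b, hUb ▸ h2⟩
      · refine ⟨c, ?_⟩
        rw [hUc]
        exact ⟨hx, fun h => h.elim h1 h2⟩
    · rintro ⟨k, hk⟩
      rcases habc k with rfl | rfl | rfl
      · exact hXW (hUa ▸ hk)
      · exact hQW (hUb ▸ hk)
      · rw [hUc] at hk; exact hk.1
  · intro i j hij
    rcases habc i with rfl | rfl | rfl <;> rcases habc j with rfl | rfl | rfl <;>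
      first
      | exact absurd rfl hij
      | (simp only [hUa, hUb, hUc]; first | assumption | (rw [disjoint_comm]; assumption))
  · intro i
    rcases habc i with rfl | rfl | rfl
    · rw [hUa]; exact hXc
    · rw [hUb]; exact hPcc Q hQ
    · rw [hUc]; exact hZc
  · intro i j hij
    rcases habc i with rfl | rfl | rfl <;> rcases habc j with rfl | rfl | rfl <;>
      first
      | exact absurd rfl hij
      | (simp only [hUa, hUb, hUc]; first | assumption | (apply SAdj.symm; assumption))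
  · intro i
    rcases habc i with rfl | rfl | rfl
    · rw [hUa]; exact hXa
    · rw [hUb]; exact hQb
    · rw [hUc]; exact hZm
  · intro i j hj
    rcases habc i with rfl | rfl | rfl
    · rw [hUa] at hj; exact hXN j hj
    · rw [hUb] at hj; exact hQN j hj
    · rw [hUc] at hj; exact hZN j hj

end Helper19.Wag
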